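import Pool.Agent.V11113.MR.Gold
import Pool.Agent.TH872.An3

set_option autoImplicit false

/-! Goldbach pairs in windows, at the multiples of a fixed number by the members of families with small exponential sums. -/

namespace Pool.Agent.V11113.MR

open Finset Filter
open Pool.Agent.V11113.MP (local_sum)
open Pool.Agent.W93.PG (WinP)

open Pool.Agent.W93.AU (Law) in
open Pool.Agent.TH872.An (windows_any) in
open Pool.Agent.V11113.MC (law_mul atoms) in
theorem win (q b U A m₁ : ℕ) (hq : 1 ≤ q) (δ ε : ℝ) (hδ : 0 < δ) (hε : 0 < ε) (P : ℕ → Prop)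
    (hP : ∀ m : ℕ, m₁ ≤ m → 2 ∣ m → WinP ε A m → P m) : ∃ m₀ : ℕ, ∀ (m : ℕ) [NeZero m], m₀ ≤ m →
    ∀ (ι : Type) (s : Finset ι) (v : ι → ZMod m),
    (∀ w : ZMod m, w ≠ 0 → ‖∑ i ∈ s, (ZMod.stdAddChar (w * v i) : ℂ)‖ ≤ s.card * (m : ℝ) ^ (-δ)) →
    ∀ c : ℤ, |c| ≤ b * m → ∀ E : ι → Prop, [DecidablePred E] →
    (∀ i ∈ s, E i → 0 < (q : ℤ) * (c + (v i).val) ∧ Even ((q : ℤ) * (c + (v i).val)) ∧
      ¬ P ((q : ℤ) * (c + (v i).val)).toNat) →
    ((s.filter E).card : ℝ) ≤ s.card / Real.log m ^ U := by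
  classical
  obtain ⟨e, he⟩ : ∃ e, 2 * (q * (b + 1)) ≤ 2 ^ e := ⟨2 * (q * (b + 1)), (Nat.lt_pow_self (by omega)).le⟩
  obtain ⟨V, hV⟩ := windows_any 2 (1 * q) U A m₁ (U + 2 + 1) le_rfl (by omega) ε hε P hP
  obtain ⟨D, K0, hlaw⟩ := law_res ((2 : ℝ) ^ e) δ (by positivity) hδ V
  obtain ⟨K1, hgl⟩ := hV D
  obtain ⟨k2, hk21, h2⟩ := atoms δ hδ (U + 3)
  obtain ⟨Q1, hQ1⟩ : ∃ Q1, Q1 = 2 ^ (e + U + 5) := ⟨_, rfl⟩
  obtain ⟨Q2, hQ2⟩ : ∃ Q2, Q2 = 64 * 2 ^ (U + 1) := ⟨_, rfl⟩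
  refine ⟨2 ^ (K0 + K1 + k2 + Q1 + Q2 + e + 4), fun m _ hm ι s v hsum c hc E _ hE => ?_⟩
  rcases s.eq_empty_or_nonempty with hs | hs
  · subst hs
    simp
  have hm0 : 0 < m := Nat.pos_of_ne_zero (NeZero.ne m)
  have hm0r : (0 : ℝ) < m := by exact_mod_cast hm0
  have hsc : (0 : ℝ) < s.card := by exact_mod_cast hs.card_pos
  obtain ⟨k, hk⟩ : ∃ k, k = Nat.log 2 m := ⟨_, rfl⟩
  have hk1 : 2 ^ k ≤ m := by rw [hk]; exact Nat.pow_log_le_self 2 (by omega)
  have hk2 : m < 2 ^ (k + 1) := by rw [hk]; exact Nat.lt_pow_succ_log_self (by norm_num) m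
  have hkR : K0 + K1 + k2 + Q1 + Q2 + e + 4 ≤ k := by
    rw [hk]
    exact Nat.le_log_of_pow_le (by norm_num) hm
  have hk1r : (2 : ℝ) ^ k ≤ m := by exact_mod_cast hk1
  have hk2r : (m : ℝ) ≤ 2 ^ (k + 1) := by exact_mod_cast hk2.le
  have he1 : 1 ≤ e := by
    by_contra hcon
    have h0 : e = 0 := by omega
    rw [h0, pow_zero] at he
    have : 1 * 1 ≤ q * (b + 1) := Nat.mul_le_mul hq (by omega)
    omega
  obtain ⟨K, hK⟩ : ∃ K, K = k + e := ⟨_, rfl⟩
  have hK1 : (2 : ℝ) ^ K ≤ 2 ^ e * m := by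
    rw [hK, pow_add, mul_comm]
    exact mul_le_mul_of_nonneg_left hk1r (by positivity)
  have hK2 : (m : ℝ) ≤ 2 ^ K := hk2r.trans (pow_le_pow_right₀ (by norm_num) (by omega))
  have hLw := law_mul q (hlaw K (by omega) m hK1 hK2 ι s hs v hsum c)
  have hKpos : (0 : ℝ) < K := by exact_mod_cast (by omega : 0 < K)
  obtain ⟨L, hL⟩ : ∃ L, L = Real.log ((2 ^ K : ℕ) : ℝ) := ⟨_, rfl⟩
  have hLK : (K : ℝ) / 2 ≤ L := by
    rw [hL]
    push_cast
    rw [Real.log_pow]
    nlinarith [Real.log_two_gt_d9]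
  have hL0 : 0 < L := lt_of_lt_of_le (by positivity) hLK
  obtain ⟨R, hR⟩ : ∃ R, R = ((2 ^ K : ℕ) : ℝ) / L ^ (U + 2 + 1) := ⟨_, rfl⟩
  have hR0 : 0 ≤ R := by rw [hR]; positivity
  obtain ⟨H, hH⟩ : ∃ H, H = ⌈R⌉₊ := ⟨_, rfl⟩
  have hkr : (0 : ℝ) < k := by exact_mod_cast (by omega : 0 < k)
  have hbig1 : (2 : ℝ) ^ (e + U + 5) ≤ K := by
    have : Q1 ≤ K := by omega
    rw [hQ1] at this
    exact_mod_cast this
  have hK1' : (1 : ℝ) ≤ K := by exact_mod_cast (by omega : 1 ≤ K)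
  have hP : (0 : ℝ) < (K : ℝ) ^ (U + 1) := by positivity
  -- the relative size of the interval
  have hRm : R / m ≤ 1 / 4 * (1 / (K : ℝ) ^ (U + 1)) := by
    have h3 : ((K : ℝ) / 2) ^ (U + 2 + 1) ≤ L ^ (U + 2 + 1) := pow_le_pow_left₀ (by positivity) hLK _
    have h4 : R ≤ 2 ^ e * m / ((K : ℝ) / 2) ^ (U + 2 + 1) := by
      rw [hR]
      push_cast
      refine (div_le_div_of_nonneg_left (by positivity) (by positivity) h3).trans ?_
      exact div_le_div_of_nonneg_right hK1 (by positivity)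
    have h5 : R / m ≤ 2 ^ e / ((K : ℝ) / 2) ^ (U + 2 + 1) := by
      rw [div_le_iff₀ hm0r]
      refine h4.trans (le_of_eq ?_)
      ring
    refine h5.trans ?_
    have h6 : (2 : ℝ) ^ e / ((K : ℝ) / 2) ^ (U + 2 + 1) = 1 / 4 * (1 / (K : ℝ) ^ (U + 1)) * (2 ^ (e + U + 5) / (K : ℝ) ^ 2) := by
      rw [div_pow]
      field_simp
      ring
    rw [h6]
    apply mul_le_of_le_one_right (by positivity)
    rw [div_le_one (by positivity)]
    nlinarith
  have hkK : (K : ℝ) ≤ 2 * k := by exact_mod_cast (by omega : K ≤ 2 * k)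
  have hnoise : 1 / (m : ℝ) + (m : ℝ) ^ (-δ) * (6 + 4 * Real.log m) ≤ 1 / 4 * (1 / (K : ℝ) ^ (U + 1)) := by
    have h3 := h2 k (by omega) m hk1
    have h4 : Real.log m ≤ k + 1 := by
      calc Real.log m ≤ Real.log ((2 : ℝ) ^ (k + 1)) := Real.log_le_log hm0r hk2r
        _ = (k + 1) * Real.log 2 := by rw [Real.log_pow]; push_cast; ring
        _ ≤ (k + 1) * 1 := mul_le_mul_of_nonneg_left (by linarith [Real.log_two_lt_d9]) (by positivity)
        _ = k + 1 := mul_one _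
    have hk1' : (1 : ℝ) ≤ k := by exact_mod_cast (by omega : 1 ≤ k)
    have h5 : 6 + 4 * Real.log m ≤ 14 * k := by linarith
    have hmd : (0 : ℝ) < (m : ℝ) ^ (-δ) := Real.rpow_pos_of_pos hm0r _
    have h6 : 1 / (m : ℝ) + (m : ℝ) ^ (-δ) * (6 + 4 * Real.log m) ≤ 14 * k * (1 / (m : ℝ) + (m : ℝ) ^ (-δ)) := by
      have h7 : 0 < 1 / (m : ℝ) := by positivity
      nlinarith
    refine h6.trans ((mul_le_mul_of_nonneg_left h3 (by positivity)).trans ?_)
    have h8 : (K : ℝ) ^ (U + 1) ≤ 2 ^ (U + 1) * (k : ℝ) ^ (U + 1) := by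
      rw [← mul_pow]
      exact pow_le_pow_left₀ hKpos.le hkK _
    have h9 : (64 : ℝ) * 2 ^ (U + 1) ≤ k := by
      have : Q2 ≤ k := by omega
      rw [hQ2] at this
      exact_mod_cast this
    have h10 : 14 * (k : ℝ) * (1 / (k : ℝ) ^ (U + 3)) = 14 / (k * (k : ℝ) ^ (U + 1)) := by
      field_simp
      ring
    rw [h10, one_div_mul_one_div, div_le_div_iff₀ (by positivity) (by positivity)]
    have h11 : (0 : ℝ) < (k : ℝ) ^ (U + 1) := by positivity
    calc 14 * (4 * (K : ℝ) ^ (U + 1)) ≤ 14 * (4 * (2 ^ (U + 1) * (k : ℝ) ^ (U + 1))) := by linarith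
      _ = (56 * 2 ^ (U + 1)) * (k : ℝ) ^ (U + 1) := by ring
      _ ≤ k * (k : ℝ) ^ (U + 1) := by
        apply mul_le_mul_of_nonneg_right _ h11.le
        have : (0 : ℝ) < 2 ^ (U + 1) := by positivity
        linarith
      _ = 1 * (k * (k : ℝ) ^ (U + 1)) := by ring
  have hone : 1 / (K : ℝ) ^ (U + 1) ≤ 1 := by
    rw [div_le_one hP]
    exact one_le_pow₀ hK1'
  have hmdn : 0 ≤ (m : ℝ) ^ (-δ) * (6 + 4 * Real.log m) := by
    have := Real.log_nonneg (show (1 : ℝ) ≤ m by exact_mod_cast hm0)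
    positivity
  have hHm' : (H : ℝ) ≤ m := by
    have h3 : (H : ℝ) < R + 1 := by rw [hH]; exact Nat.ceil_lt_add_one hR0
    have h4 : R ≤ 1 / 4 * m := by
      rw [div_le_iff₀ hm0r] at hRm
      nlinarith
    have h5 : (4 : ℝ) ≤ m := by
      have : 4 ≤ 2 ^ k := by
        calc 4 = 2 ^ 2 := by norm_num
          _ ≤ 2 ^ k := Nat.pow_le_pow_right (by norm_num) (by omega)
      exact_mod_cast this.trans hk1
    linarith
  have hHm : H ≤ m := by exact_mod_cast hHm'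
  have hfin := hgl K (by omega) ι s (fun _ => 1 / (s.card : ℝ)) (fun i => (q : ℤ) * (c + ((v i).val : ℤ))) hLw (by
      intro i _
      have hv1 : ((v i).val : ℤ) ≤ m := by exact_mod_cast (ZMod.val_lt (v i)).le
      have hv0 : (0 : ℤ) ≤ ((v i).val : ℤ) := by positivity
      have h3 : |(q : ℤ) * (c + ((v i).val : ℤ))| ≤ q * ((b + 1) * m) := by
        rw [abs_mul, abs_of_nonneg (by positivity : (0 : ℤ) ≤ q)]
        apply mul_le_mul_of_nonneg_left _ (by positivity)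
        refine (abs_add_le _ _).trans ?_
        rw [abs_of_nonneg hv0]
        linarith
      have h4 : q * ((b + 1) * m) < 2 ^ K := by
        calc q * ((b + 1) * m) = (q * (b + 1)) * m := by ring
          _ < (q * (b + 1)) * 2 ^ (k + 1) := Nat.mul_lt_mul_of_pos_left hk2 (Nat.mul_pos hq (by omega))
          _ = 2 * (q * (b + 1)) * 2 ^ k := by ring
          _ ≤ 2 ^ e * 2 ^ k := Nat.mul_le_mul_right _ he
          _ = 2 ^ K := by rw [hK, pow_add]; ring
      refine lt_of_le_of_lt h3 ?_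
      exact_mod_cast h4) (by
      intro Sm _ hSm
      rw [← sum_filter, sum_const, nsmul_eq_mul]
      have h3 : ((s.filter Sm).card : ℝ) ≤
          s.card * (H / m + (m : ℝ) ^ (-δ) * (6 + 4 * Real.log m)) := by
        refine le_trans ?_ (card_int m s v δ hsum ((1 - c : ℤ) : ZMod m) H hHm)
        apply Nat.cast_le.2
        apply card_le_card
        intro i hi
        rw [mem_filter] at hi ⊢
        obtain ⟨his, hi0⟩ := hi
        obtain ⟨hi1, hi2⟩ := hSm i his hi0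
        rw [← hL, ← hR] at hi2
        refine ⟨his, ?_⟩
        have hq1 : (1 : ℤ) ≤ q := by exact_mod_cast hq
        have h5 : 1 ≤ c + ((v i).val : ℤ) := by
          by_contra hcon
          have h6 : c + ((v i).val : ℤ) ≤ 0 := by omega
          have h7 : (q : ℤ) * (c + ((v i).val : ℤ)) ≤ 0 := mul_nonpos_of_nonneg_of_nonpos (by positivity) h6
          omega
        obtain ⟨t, ht⟩ : ∃ t : ℕ, (t : ℤ) = c + ((v i).val : ℤ) - 1 := ⟨(c + ((v i).val : ℤ) - 1).toNat, Int.toNat_of_nonneg (by omega)⟩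
        have h8 : c + ((v i).val : ℤ) ≤ (q : ℤ) * (c + ((v i).val : ℤ)) := by nlinarith
        have h9 : (t : ℝ) < R := by
          refine lt_of_le_of_lt ?_ hi2
          have : (t : ℤ) ≤ (q : ℤ) * (c + ((v i).val : ℤ)) := by omega
          exact_mod_cast this
        have h10 : t < H := by
          have : (t : ℝ) < H := lt_of_lt_of_le h9 (by rw [hH]; exact Nat.le_ceil R)
          exact_mod_cast this
        have h11 : v i - ((1 - c : ℤ) : ZMod m) = (t : ZMod m) := by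
          have h12 : ((t : ℤ) : ZMod m) = ((c + ((v i).val : ℤ) - 1 : ℤ) : ZMod m) := by rw [ht]
          push_cast at h12 ⊢
          rw [ZMod.natCast_zmod_val] at h12
          rw [h12]
          ring
        rw [h11, ZMod.val_natCast_of_lt (by omega)]
        exact h10
      have h4 : (H : ℝ) / m ≤ R / m + 1 / m := by
        rw [← add_div]
        apply div_le_div_of_nonneg_right _ hm0r.le
        rw [hH]
        exact (Nat.ceil_lt_add_one hR0).le
      calc ((s.filter Sm).card : ℝ) * (1 / (s.card : ℝ))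
          ≤ (s.card * (H / m + (m : ℝ) ^ (-δ) * (6 + 4 * Real.log m))) * (1 / (s.card : ℝ)) :=
            mul_le_mul_of_nonneg_right h3 (by positivity)
        _ = H / m + (m : ℝ) ^ (-δ) * (6 + 4 * Real.log m) := by field_simp
        _ ≤ 1 / (K : ℝ) ^ (U + 1) := by
          have : 0 < 1 / (K : ℝ) ^ (U + 1) := by positivity
          linarith) E (fun i his hEi => hE i his hEi)
  rw [← sum_filter, sum_const, nsmul_eq_mul, mul_one_div, div_le_iff₀ hsc] at hfin
  refine hfin.trans ?_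
  have hlogm : Real.log m ≤ K := by
    calc Real.log m ≤ Real.log ((2 : ℝ) ^ K) := Real.log_le_log hm0r hK2
      _ = K * Real.log 2 := by rw [Real.log_pow]
      _ ≤ K * 1 := mul_le_mul_of_nonneg_left (by linarith [Real.log_two_lt_d9]) (by positivity)
      _ = K := mul_one _
  have hlog0 : 0 < Real.log m := by
    apply Real.log_pos
    have : 2 ≤ 2 ^ k := by
      calc 2 = 2 ^ 1 := by norm_num
        _ ≤ 2 ^ k := Nat.pow_le_pow_right (by norm_num) (by omega)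
    exact_mod_cast (by omega : 1 < m)
  rw [one_div_mul_eq_div]
  exact div_le_div_of_nonneg_left hsc.le (by positivity) (pow_le_pow_left₀ hlog0.le hlogm U)

end Pool.Agent.V11113.MR
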