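import Pool.Agent.V11113.MR.Eq

set_option autoImplicit false

/-! The second moment of the number of the local conditions which are satisfied by the members of a
family with small exponential sums. -/

namespace Pool.Agent.V11113.MR

open Finset

/-- Chinese remainder theorem -/
lemma crt_sum (q q' : ℕ) [NeZero q] [NeZero q'] [NeZero (q * q')] (h : Nat.Coprime q q')
    (f : ZMod q → ℝ) (f' : ZMod q' → ℝ) :
    ∑ r : ZMod (q * q'), f ((ZMod.chineseRemainder h r).1) * f' ((ZMod.chineseRemainder h r).2) =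
      (∑ r, f r) * ∑ r, f' r := by
  have h1 : ∑ r : ZMod (q * q'), f ((ZMod.chineseRemainder h r).1) * f' ((ZMod.chineseRemainder h r).2) =
      ∑ x : ZMod q × ZMod q', f x.1 * f' x.2 :=
    Fintype.sum_equiv (ZMod.chineseRemainder h).toEquiv _ (fun x : ZMod q × ZMod q' => f x.1 * f' x.2)
      (fun _ => rfl)
  rw [h1, Fintype.sum_prod_type, Finset.sum_mul_sum]

lemma kap_nonneg (m : ℕ) (δ q : ℝ) (hq : 0 ≤ q) : 0 ≤ kap m δ q := by
  unfold kap
  have := Real.log_natCast_nonneg m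
  positivity

lemma kap_mono (m : ℕ) (δ q q' : ℝ) (h : q ≤ q') : kap m δ q ≤ kap m δ q' := by
  unfold kap
  gcongr

section
variable (m : ℕ) [NeZero m] {ι : Type*} (s : Finset ι) (v : ι → ZMod m) (δ : ℝ)
    (hsum : ∀ w : ZMod m, w ≠ 0 → ‖∑ i ∈ s, (ZMod.stdAddChar (w * v i) : ℂ)‖ ≤ s.card * (m : ℝ) ^ (-δ))
    (a : ℤ)
include hsum

lemma cross (q q' : ℕ) (hq : 0 < q) (hq' : 0 < q') (h : Nat.Coprime q q') (f : ZMod q → ℝ)
    (f' : ZMod q' → ℝ) (hf : ∀ r, |f r| ≤ 1) (hf' : ∀ r, |f' r| ≤ 1)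
    (h0 : ∑ r ∈ range q, f (r : ZMod q) = 0) (Z : ℝ) (hZ : (q : ℝ) ≤ Z) (hZ' : (q' : ℝ) ≤ Z) :
    ∑ i ∈ s, f ((a + ((v i).val : ℤ) : ℤ) : ZMod q) * f' ((a + ((v i).val : ℤ) : ℤ) : ZMod q') ≤
      s.card * (Z ^ 2 * kap m δ (Z ^ 2)) := by
  have : NeZero q := ⟨hq.ne'⟩
  have : NeZero q' := ⟨hq'.ne'⟩
  have : NeZero (q * q') := ⟨(Nat.mul_pos hq hq').ne'⟩
  have h1 := equi m s v δ hsum a (q * q')
    (fun r => f ((ZMod.chineseRemainder h r).1) * f' ((ZMod.chineseRemainder h r).2)) (by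
      intro r
      rw [abs_mul]
      exact mul_le_one₀ (hf _) (abs_nonneg _) (hf' _))
  have h2 : ∑ r : ZMod q, f r = 0 := by
    rw [← h0]
    symm
    refine Finset.sum_nbij' (fun r : ℕ => (r : ZMod q)) (fun r => r.val) ?_ ?_ ?_ ?_ ?_
    · intro r _
      exact Finset.mem_univ _
    · intro r _
      exact Finset.mem_range.2 (ZMod.val_lt r)
    · intro r hr
      exact ZMod.val_cast_of_lt (Finset.mem_range.1 hr)
    · intro r _
      exact ZMod.natCast_zmod_val r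
    · intro r _
      rfl
  rw [crt_sum q q' h f f', h2, zero_mul, mul_zero, sub_zero] at h1
  have h3 : ∀ n : ℤ, f ((ZMod.chineseRemainder h (n : ZMod (q * q'))).1) *
      f' ((ZMod.chineseRemainder h (n : ZMod (q * q'))).2) = f (n : ZMod q) * f' (n : ZMod q') := by
    intro n
    rw [map_intCast]
    rfl
  simp only [h3] at h1
  refine (le_abs_self _).trans (h1.trans ?_)
  have hq0 : (0 : ℝ) ≤ q := Nat.cast_nonneg _
  have hq0' : (0 : ℝ) ≤ q' := Nat.cast_nonneg _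
  have h4 : ((q * q' : ℕ) : ℝ) ≤ Z ^ 2 := by
    push_cast
    nlinarith
  have h5 := kap_mono m δ _ _ h4
  have h6 := kap_nonneg m δ ((q * q' : ℕ) : ℝ) (Nat.cast_nonneg _)
  refine mul_le_mul_of_nonneg_left ?_ (Nat.cast_nonneg _)
  exact mul_le_mul h4 h5 h6 (by positivity)

lemma diag (q : ℕ) (hq : 0 < q) (f : ZMod q → ℝ) (hf : ∀ r, |f r| ≤ 1) (Z : ℝ) (hZ : (q : ℝ) ≤ Z) (hZ1 : 1 ≤ Z) :
    ∑ i ∈ s, f ((a + ((v i).val : ℤ) : ℤ) : ZMod q) * f ((a + ((v i).val : ℤ) : ℤ) : ZMod q) ≤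
      s.card * ((∑ r ∈ range q, f (r : ZMod q) ^ 2) / q + Z ^ 2 * kap m δ (Z ^ 2)) := by
  have : NeZero q := ⟨hq.ne'⟩
  have h1 := equi m s v δ hsum a q (fun r => f r * f r) (by
      intro r
      rw [abs_mul]
      exact mul_le_one₀ (hf _) (abs_nonneg _) (hf _))
  have h2 : ∑ r ∈ range q, f (r : ZMod q) ^ 2 = ∑ r : ZMod q, f r * f r := by
    refine Finset.sum_nbij' (fun r : ℕ => (r : ZMod q)) (fun r => r.val) ?_ ?_ ?_ ?_ ?_
    · intro r _
      exact Finset.mem_univ _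
    · intro r _
      exact Finset.mem_range.2 (ZMod.val_lt r)
    · intro r hr
      exact ZMod.val_cast_of_lt (Finset.mem_range.1 hr)
    · intro r _
      exact ZMod.natCast_zmod_val r
    · intro r _
      exact sq _
  have h3 := (abs_le.1 h1).2
  have h4 : (q : ℝ) ≤ Z ^ 2 := by nlinarith
  have h5 := kap_mono m δ _ _ h4
  have h6 := kap_nonneg m δ (q : ℝ) (Nat.cast_nonneg _)
  have h7 : (q : ℝ) * kap m δ q ≤ Z ^ 2 * kap m δ (Z ^ 2) := mul_le_mul h4 h5 h6 (by positivity)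
  have h8 : (s.card : ℝ) * (q * kap m δ q) ≤ s.card * (Z ^ 2 * kap m δ (Z ^ 2)) :=
    mul_le_mul_of_nonneg_left h7 (Nat.cast_nonneg _)
  rw [h2, mul_add]
  have h9 : (s.card : ℝ) * ((∑ r : ZMod q, f r * f r) / q) = s.card / q * ∑ r : ZMod q, f r * f r := by ring
  rw [h9]
  linarith

/-- the second moment -/
theorem moment (P : Finset ℕ) (M : ℕ → ℕ) (hM : ∀ j ∈ P, 0 < M j)
    (hcop : ∀ j ∈ P, ∀ j' ∈ P, j ≠ j' → Nat.Coprime (M j) (M j')) (Z : ℝ) (hZ1 : 1 ≤ Z)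
    (hZ : ∀ j ∈ P, (M j : ℝ) ≤ Z) (f : (j : ℕ) → ZMod (M j) → ℝ) (hf : ∀ j r, |f j r| ≤ 1)
    (h0 : ∀ j ∈ P, ∑ r ∈ range (M j), f j (r : ZMod (M j)) = 0) :
    ∑ i ∈ s, (∑ j ∈ P, f j ((a + ((v i).val : ℤ) : ℤ) : ZMod (M j))) ^ 2 ≤
      s.card * (∑ j ∈ P, (∑ r ∈ range (M j), f j (r : ZMod (M j)) ^ 2) / M j +
        (P.card : ℝ) ^ 2 * (Z ^ 2 * kap m δ (Z ^ 2))) := by
  classical
  obtain ⟨K, hK⟩ : ∃ K, K = Z ^ 2 * kap m δ (Z ^ 2) := ⟨_, rfl⟩
  have h1 : ∀ i ∈ s, (∑ j ∈ P, f j ((a + ((v i).val : ℤ) : ℤ) : ZMod (M j))) ^ 2 =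
      ∑ j ∈ P, ∑ j' ∈ P, f j ((a + ((v i).val : ℤ) : ℤ) : ZMod (M j)) *
        f j' ((a + ((v i).val : ℤ) : ℤ) : ZMod (M j')) := by
    intro i _
    rw [sq, sum_mul_sum]
  rw [sum_congr rfl h1, sum_comm]
  have h2 : ∀ j ∈ P, ∑ i ∈ s, ∑ j' ∈ P, f j ((a + ((v i).val : ℤ) : ℤ) : ZMod (M j)) *
        f j' ((a + ((v i).val : ℤ) : ℤ) : ZMod (M j')) ≤
      s.card * ((∑ r ∈ range (M j), f j (r : ZMod (M j)) ^ 2) / M j + P.card * K) := by
    intro j hj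
    rw [sum_comm, ← Finset.add_sum_erase _ _ hj]
    have h3 := diag m s v δ hsum a (M j) (hM j hj) (f j) (hf j) Z (hZ j hj) hZ1
    rw [← hK] at h3
    have h4 : ∀ j' ∈ P.erase j, ∑ i ∈ s, f j ((a + ((v i).val : ℤ) : ℤ) : ZMod (M j)) *
        f j' ((a + ((v i).val : ℤ) : ℤ) : ZMod (M j')) ≤ s.card * K := by
      intro j' hj'
      rw [hK]
      have hj'' := Finset.mem_of_mem_erase hj'
      exact cross m s v δ hsum a (M j) (M j') (hM j hj) (hM j' hj'')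
        (hcop j hj j' hj'' (Finset.ne_of_mem_erase hj').symm) (f j) (f j') (hf j) (hf j') (h0 j hj) Z
        (hZ j hj) (hZ j' hj'')
    have h5 := sum_le_sum h4
    rw [sum_const, nsmul_eq_mul, Finset.card_erase_of_mem hj] at h5
    have h6 : ((P.card - 1 : ℕ) : ℝ) = P.card - 1 := by
      rw [Nat.cast_sub (Finset.card_pos.2 ⟨j, hj⟩)]
      simp
    rw [h6] at h5
    refine (add_le_add h3 h5).trans (le_of_eq ?_)
    ring
  refine (sum_le_sum h2).trans (le_of_eq ?_)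
  rw [← mul_sum, sum_add_distrib, sum_const, nsmul_eq_mul, ← hK]
  ring

end

open Classical in
/-- the proportion of the residue classes in `G j` -/
noncomputable def rho (M : ℕ → ℕ) (G : (j : ℕ) → Set (ZMod (M j))) (j : ℕ) : ℝ :=
  (((range (M j)).filter (fun r : ℕ => (r : ZMod (M j)) ∈ G j)).card : ℝ) / M j

lemma rho_nonneg (M : ℕ → ℕ) (G : (j : ℕ) → Set (ZMod (M j))) (j : ℕ) : 0 ≤ rho M G j := by
  unfold rho
  exact div_nonneg (Nat.cast_nonneg _) (Nat.cast_nonneg _)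

lemma rho_le_one (M : ℕ → ℕ) (G : (j : ℕ) → Set (ZMod (M j))) (j : ℕ) : rho M G j ≤ 1 := by
  classical
  unfold rho
  refine div_le_one_of_le₀ ?_ (Nat.cast_nonneg _)
  have := Finset.card_filter_le (range (M j)) (fun r : ℕ => (r : ZMod (M j)) ∈ G j)
  rw [card_range] at this
  exact_mod_cast this

open Classical in
/-- the second moment of the number of the conditions which are satisfied -/
theorem second (m : ℕ) [NeZero m] {ι : Type*} (s : Finset ι) (v : ι → ZMod m) (δ : ℝ)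
    (hsum : ∀ w : ZMod m, w ≠ 0 → ‖∑ i ∈ s, (ZMod.stdAddChar (w * v i) : ℂ)‖ ≤ s.card * (m : ℝ) ^ (-δ))
    (a : ℤ) (P : Finset ℕ) (M : ℕ → ℕ) (hM : ∀ j ∈ P, 0 < M j)
    (hcop : ∀ j ∈ P, ∀ j' ∈ P, j ≠ j' → Nat.Coprime (M j) (M j')) (Z : ℝ) (hZ1 : 1 ≤ Z)
    (hZ : ∀ j ∈ P, (M j : ℝ) ≤ Z) (G : (j : ℕ) → Set (ZMod (M j))) :
    ∑ i ∈ s, (((P.filter (fun j => ((a + ((v i).val : ℤ) : ℤ) : ZMod (M j)) ∈ G j)).card : ℝ) -
      ∑ j ∈ P, rho M G j) ^ 2 ≤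
      s.card * (∑ j ∈ P, rho M G j + (P.card : ℝ) ^ 2 * (Z ^ 2 * kap m δ (Z ^ 2))) := by
  have hG : ∀ j ∈ P, ∑ r ∈ range (M j), (if (r : ZMod (M j)) ∈ G j then (1 : ℝ) else 0) = M j * rho M G j := by
    intro j hj
    have hMj : (M j : ℝ) ≠ 0 := by exact_mod_cast (hM j hj).ne'
    rw [Finset.sum_boole]
    unfold rho
    field_simp
  have h1 := moment m s v δ hsum a P M hM hcop Z hZ1 hZ
    (fun j r => (if r ∈ G j then 1 else 0) - rho M G j) (by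
      intro j r
      have h2 := rho_nonneg M G j
      have h3 := rho_le_one M G j
      rw [abs_le]
      split_ifs <;> constructor <;> linarith) (by
      intro j hj
      rw [sum_sub_distrib, hG j hj, sum_const, card_range, nsmul_eq_mul, sub_self])
  have h4 : ∀ i ∈ s, (((P.filter (fun j => ((a + ((v i).val : ℤ) : ℤ) : ZMod (M j)) ∈ G j)).card : ℝ) -
      ∑ j ∈ P, rho M G j) ^ 2 =
      (∑ j ∈ P, ((if ((a + ((v i).val : ℤ) : ℤ) : ZMod (M j)) ∈ G j then (1 : ℝ) else 0) - rho M G j)) ^ 2 := by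
    intro i _
    rw [sum_sub_distrib, Finset.sum_boole]
  rw [sum_congr rfl h4]
  refine h1.trans ?_
  refine mul_le_mul_of_nonneg_left (add_le_add_left ?_ _) (Nat.cast_nonneg _)
  refine sum_le_sum fun j hj => ?_
  have hMj : (0 : ℝ) < M j := by exact_mod_cast hM j hj
  have h2 := rho_nonneg M G j
  rw [div_le_iff₀ hMj]
  have h5 : ∀ r ∈ range (M j), ((if (r : ZMod (M j)) ∈ G j then (1 : ℝ) else 0) - rho M G j) ^ 2 =
      (1 - 2 * rho M G j) * (if (r : ZMod (M j)) ∈ G j then (1 : ℝ) else 0) + rho M G j ^ 2 := by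
    intro r _
    split_ifs <;> ring
  rw [sum_congr rfl h5, sum_add_distrib, ← mul_sum, hG j hj, sum_const, card_range, nsmul_eq_mul]
  nlinarith [mul_nonneg hMj.le (mul_nonneg h2 h2)]

end Pool.Agent.V11113.MR
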