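import Pool.Agent.V11113.MR.ArtinL

set_option autoImplicit false

/-! From mean values over the residue classes to asymptotic formulas for almost all members of a
family with small exponential sums. -/

namespace Pool.Agent.V11113.MR

open Finset Filter Topology
open Pool.Agent.H386R2.Artin (PP card_PP)

lemma expected_le (G : (p : ℕ) → Set (ZMod p)) (x : ℕ) : expected Pr (fun p => p) G x ≤ Nat.primeCounting x := by
  unfold expected
  rw [idx_Pr]
  refine (sum_le_sum (g := fun _ => (1 : ℝ)) fun p _ => rho_le_one _ _ _).trans (le_of_eq ?_)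
  rw [sum_const, nsmul_eq_mul, mul_one, card_PP]

open Classical in
/-- asymptotic formulas for almost all members -/
theorem members (δ : ℝ) (hδ : 0 < δ) : ∃ m₀ : ℕ, ∀ ε : ℝ, 0 < ε → ∃ C : ℝ, 0 < C ∧
    ∀ (G : (p : ℕ) → Set (ZMod p)) (d : ℝ),
    Tendsto (fun x : ℕ => expected Pr (fun p => p) G x / (Nat.primeCounting x : ℝ)) atTop (𝓝 d) →
    ∃ X₀ : ℕ, ∀ (m : ℕ) [NeZero m], m₀ ≤ m → ∀ (ι : Type) (s : Finset ι) (v : ι → ZMod m),
    (∀ b : ZMod m, b ≠ 0 → ‖∑ i ∈ s, (ZMod.stdAddChar (b * v i) : ℂ)‖ ≤ s.card * (m : ℝ) ^ (-δ)) →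
    ∀ (a : ℤ) (X : ℕ), X₀ ≤ X →
    ((s.filter (fun i => ∃ x : ℕ, X ≤ x ∧ (x : ℝ) ≤ (m : ℝ) ^ cc δ 1 ∧
      ε * Nat.primeCounting x < |(hits Pr (fun p => p) G (a + ((v i).val : ℤ)) x : ℝ) -
        d * Nat.primeCounting x|)).card : ℝ) ≤ C * s.card / Nat.primeCounting X := by
  obtain ⟨m₀, hm₀⟩ := lln δ hδ 1
  refine ⟨m₀, fun ε hε => ?_⟩
  obtain ⟨η, hη⟩ : ∃ η, η = min (ε / 12) 1 := ⟨_, rfl⟩
  have hη0 : 0 < η := by rw [hη]; exact lt_min (by linarith) one_pos
  have hη1 : η ≤ 1 := by rw [hη]; exact min_le_right _ _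
  have hηε : η ≤ ε / 12 := by rw [hη]; exact min_le_left _ _
  refine ⟨8 / η ^ 3, by positivity, fun G d hlim => ?_⟩
  obtain ⟨X₁, hX₁⟩ := (Metric.tendsto_atTop.1 hlim) (ε / 2) (by linarith)
  refine ⟨X₁ + 2, fun m _ hm ι s v hsum a X hX => ?_⟩
  have hpos : ∀ x, X ≤ x → (1 : ℝ) ≤ Nat.primeCounting x := by
    intro x hx
    have h1 : Nat.primeCounting 2 ≤ Nat.primeCounting x := Nat.monotone_primeCounting (by omega)
    have h2 : Nat.primeCounting 2 = 1 := by decide
    rw [h2] at h1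
    exact_mod_cast h1
  have hexp0 : ∀ x, 0 ≤ expected Pr (fun p => p) G x := by
    intro x
    unfold expected
    exact sum_nonneg fun p _ => rho_nonneg _ _ _
  have h := hm₀ η hη0 hη1 m hm ι s v hsum a Pr (fun p => p) G
    (fun p hp => ⟨Nat.Prime.pos hp, by rw [pow_one]⟩)
    (fun p hp p' hp' hne => (Nat.coprime_primes hp hp').2 hne) (fun x => (Nat.primeCounting x : ℝ))
    (fun x y hxy => Nat.cast_le.2 (Nat.monotone_primeCounting hxy)) (fun x => Nat.cast_nonneg _) X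
    (by have := hpos X le_rfl; have := hexp0 X; linarith)
  have hπX := hpos X le_rfl
  refine le_trans ?_ (h.trans ?_)
  · apply Nat.cast_le.2
    apply card_le_card
    intro i hi
    rw [mem_filter] at hi ⊢
    obtain ⟨his, x, hx1, hx2, hx3⟩ := hi
    refine ⟨his, x, hx1, hx2, ?_⟩
    by_contra hcon
    rw [not_lt] at hcon
    obtain ⟨π, hπ⟩ : ∃ π : ℝ, π = Nat.primeCounting x := ⟨_, rfl⟩
    obtain ⟨S, hS⟩ : ∃ S, S = expected Pr (fun p => p) G x := ⟨_, rfl⟩
    obtain ⟨N, hN⟩ : ∃ N : ℝ, N = (hits Pr (fun p => p) G (a + ((v i).val : ℤ)) x : ℝ) := ⟨_, rfl⟩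
    have e1 := hpos x hx1
    have e2 := expected_le G x
    have e3 := hX₁ x (by omega)
    rw [Real.dist_eq] at e3
    rw [← hπ] at hx3 hcon e1 e2 e3
    rw [← hS] at hcon e2 e3
    rw [← hN] at hx3 hcon
    have hπ0 : 0 < π := by linarith
    have e4 : |S - d * π| ≤ ε / 2 * π := by
      have : S - d * π = (S / π - d) * π := by field_simp
      rw [this, abs_mul, abs_of_pos hπ0]
      exact mul_le_mul_of_nonneg_right e3.le hπ0.le
    have e5 : 3 * η * (S + π) ≤ ε / 2 * π := by nlinarith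
    have e6 : |N - d * π| ≤ |N - S| + |S - d * π| := by
      have := abs_add_le (N - S) (S - d * π)
      rwa [sub_add_sub_cancel] at this
    linarith
  · refine div_le_div_of_nonneg_left (by positivity) (by linarith) ?_
    have := hexp0 X
    linarith

lemma hits_GP (n : ℤ) (x : ℕ) [DecidablePred fun p : ℕ => p.Prime ∧ orderOf (n : ZMod p) = p - 1] :
    hits Pr (fun p => p) GP n x =
      ((range (x + 1)).filter (fun p : ℕ => p.Prime ∧ orderOf (n : ZMod p) = p - 1)).card := by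
  classical
  unfold hits
  rw [idx_Pr]
  unfold PP
  rw [filter_filter]
  congr 1
  refine filter_congr fun p _ => Iff.rfl

lemma hits_GD (D n : ℤ) (x : ℕ) [DecidablePred fun p : ℕ => p.Prime ∧ orderOf ((D * n ^ 2 : ℤ) : ZMod p) = p - 1] :
    hits Pr (fun p => p) (GD D) n x =
      ((range (x + 1)).filter (fun p : ℕ => p.Prime ∧ orderOf ((D * n ^ 2 : ℤ) : ZMod p) = p - 1)).card := by
  classical
  unfold hits
  rw [idx_Pr]
  unfold PP
  rw [filter_filter]
  congr 1
  refine filter_congr fun p _ => and_congr_right fun _ => ?_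
  show orderOf ((D : ZMod p) * (n : ZMod p) ^ 2) = p - 1 ↔ _
  push_cast
  rfl

end Pool.Agent.V11113.MR
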