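import Pool.Agent.V11113.MR.Prim
import Pool.Agent.H386R2.Artin.SumG
import Pool.Agent.H386R2.Artin.SumH
import Pool.Agent.H386R2.Artin.ArtinLim
import Pool.Agent.H730R2.AA.MainTerm

set_option autoImplicit false

/-! The mean values for the conjecture of Artin. -/

namespace Pool.Agent.V11113.MR

open Finset Filter Topology
open Pool.Agent.H386R2.Artin (PP gL hL artinC artinL sumG sumH artinLim card_PP)

lemma one_sub_prod (R : Finset ℕ) (x : ℕ → ℝ) (h0 : ∀ l ∈ R, 0 ≤ x l) (h1 : ∀ l ∈ R, x l ≤ 1) :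
    1 - ∑ l ∈ R, x l ≤ ∏ l ∈ R, (1 - x l) ∧ ∏ l ∈ R, (1 - x l) ≤ 1 ∧ 0 ≤ ∏ l ∈ R, (1 - x l) := by
  classical
  induction R using Finset.induction_on with
  | empty => simp
  | insert a R ha ih =>
    obtain ⟨i1, i2, i3⟩ := ih (fun l hl => h0 l (mem_insert_of_mem hl)) (fun l hl => h1 l (mem_insert_of_mem hl))
    have ha0 := h0 a (mem_insert_self _ _)
    have ha1 := h1 a (mem_insert_self _ _)
    rw [sum_insert ha, prod_insert ha]
    refine ⟨?_, ?_, ?_⟩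
    · nlinarith
    · nlinarith
    · exact mul_nonneg (by linarith) i3

lemma phi_ratio (L n : ℕ) (hn : 1 ≤ n) : |(Nat.totient n : ℝ) / n - gL L n| ≤ hL L n := by
  have hn0 : (n : ℝ) ≠ 0 := by positivity
  have h1 : (Nat.totient n : ℝ) / n = ∏ l ∈ n.primeFactors, (1 - 1 / (l : ℝ)) := by
    have h := Nat.totient_eq_mul_prod_factors n
    have h2 : ((Nat.totient n : ℚ) : ℝ) = ((n * ∏ p ∈ n.primeFactors, (1 - (p : ℚ)⁻¹) : ℚ) : ℝ) := by rw [h]
    push_cast at h2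
    rw [h2, mul_div_cancel_left₀ _ hn0]
    refine prod_congr rfl fun l _ => ?_
    rw [one_div]
  have h2 : ∏ l ∈ n.primeFactors, (1 - 1 / (l : ℝ)) =
      gL L n * ∏ l ∈ n.primeFactors.filter (fun l => L < l), (1 - 1 / (l : ℝ)) := by
    unfold gL
    rw [← prod_filter_mul_prod_filter_not n.primeFactors (fun l => l ≤ L)]
    congr 2
    refine filter_congr fun l _ => ?_
    rw [not_le]
  have hb : ∀ l ∈ n.primeFactors, (0 : ℝ) ≤ 1 / (l : ℝ) ∧ 1 / (l : ℝ) ≤ 1 := by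
    intro l hl
    have h3 : (1 : ℝ) ≤ l := by exact_mod_cast (Nat.prime_of_mem_primeFactors hl).one_lt.le
    refine ⟨by positivity, ?_⟩
    rw [div_le_one (by linarith)]
    exact h3
  have h3 := one_sub_prod (n.primeFactors.filter (fun l => L < l)) (fun l => 1 / (l : ℝ))
    (fun l hl => (hb l (mem_filter.1 hl).1).1) (fun l hl => (hb l (mem_filter.1 hl).1).2)
  have h4 := one_sub_prod (n.primeFactors.filter (fun l => l ≤ L)) (fun l => 1 / (l : ℝ))
    (fun l hl => (hb l (mem_filter.1 hl).1).1) (fun l hl => (hb l (mem_filter.1 hl).1).2)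
  rw [h1, h2]
  have h5 : gL L n = ∏ l ∈ n.primeFactors.filter (fun l => l ≤ L), (1 - 1 / (l : ℝ)) := rfl
  have h6 : hL L n = ∑ l ∈ n.primeFactors.filter (fun l => L < l), 1 / (l : ℝ) := rfl
  rw [h5, h6]
  obtain ⟨a1, a2, a3⟩ := h3
  obtain ⟨_, b2, b3⟩ := h4
  rw [abs_le]
  constructor
  · nlinarith
  · nlinarith [sum_nonneg (fun l hl => (hb l (mem_filter.1 hl).1).1 :
      ∀ l ∈ n.primeFactors.filter (fun l => L < l), (0 : ℝ) ≤ 1 / (l : ℝ))]

lemma pi_tendsto : Tendsto (fun x : ℕ => (Nat.primeCounting x : ℝ)) atTop atTop := by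
  refine tendsto_natCast_atTop_atTop.comp ?_
  exact Nat.tendsto_primeCounting

theorem totient_avg : Tendsto (fun x : ℕ => (∑ p ∈ PP x, (Nat.totient (p - 1) : ℝ) / ((p - 1 : ℕ) : ℝ)) /
    (Nat.primeCounting x : ℝ)) atTop (𝓝 artinC) := by
  rw [Metric.tendsto_atTop]
  intro ε hε
  obtain ⟨C, hC, hH⟩ := sumH
  obtain ⟨L₁, hL₁⟩ := (Metric.tendsto_atTop.1 artinLim) (ε / 4) (by linarith)
  obtain ⟨L₂, hL₂⟩ := exists_nat_gt (C / (ε / 4))
  obtain ⟨L, hLd⟩ : ∃ L, L = L₁ + L₂ + 1 := ⟨_, rfl⟩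
  have hL0 : (0 : ℝ) < L := by rw [hLd]; positivity
  have hCL : C / L ≤ ε / 4 := by
    rw [div_lt_iff₀ (by linarith)] at hL₂
    rw [div_le_iff₀ hL0]
    have : (L₂ : ℝ) ≤ L := by exact_mod_cast (by omega : L₂ ≤ L)
    nlinarith
  obtain ⟨x₁, hx₁⟩ := hH L (by omega)
  obtain ⟨x₂, hx₂⟩ := (Metric.tendsto_atTop.1 (sumG L)) (ε / 4) (by linarith)
  have hLL := hL₁ L (by omega)
  obtain ⟨x₃, hx₃⟩ := eventually_atTop.1 (pi_tendsto.eventually_ge_atTop 1)
  refine ⟨x₁ + x₂ + x₃, fun x hx => ?_⟩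
  have q1 := hx₁ x (by omega)
  have q2 := hx₂ x (by omega)
  have q3 := hx₃ x (by omega)
  obtain ⟨π, hπ⟩ : ∃ π : ℝ, π = Nat.primeCounting x := ⟨_, rfl⟩
  rw [← hπ] at q1 q2 q3 ⊢
  have hπ0 : 0 < π := by linarith
  rw [Real.dist_eq] at hLL q2 ⊢
  have h1 : |(∑ p ∈ PP x, (Nat.totient (p - 1) : ℝ) / ((p - 1 : ℕ) : ℝ)) / π -
      (∑ p ∈ PP x, gL L (p - 1)) / π| ≤ ε / 4 := by
    rw [← sub_div, ← sum_sub_distrib, abs_div, abs_of_pos hπ0, div_le_iff₀ hπ0]
    refine (abs_sum_le_sum_abs _ _).trans ?_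
    have h2 : ∀ p ∈ PP x, |(Nat.totient (p - 1) : ℝ) / ((p - 1 : ℕ) : ℝ) - gL L (p - 1)| ≤ hL L (p - 1) := by
      intro p hp
      unfold PP at hp
      have h3 := (mem_filter.1 hp).2.two_le
      exact phi_ratio L (p - 1) (by omega)
    refine (sum_le_sum h2).trans (q1.trans ?_)
    exact mul_le_mul_of_nonneg_right hCL hπ0.le
  calc |(∑ p ∈ PP x, (Nat.totient (p - 1) : ℝ) / ((p - 1 : ℕ) : ℝ)) / π - artinC| =
      |((∑ p ∈ PP x, (Nat.totient (p - 1) : ℝ) / ((p - 1 : ℕ) : ℝ)) / π - (∑ p ∈ PP x, gL L (p - 1)) / π) +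
        ((∑ p ∈ PP x, gL L (p - 1)) / π - artinL L) + (artinL L - artinC)| := by ring_nf
    _ ≤ ε / 4 + ε / 4 + ε / 4 := by
        refine (abs_add_le _ _).trans (add_le_add ((abs_add_le _ _).trans (add_le_add h1 q2.le)) hLL.le)
    _ < ε := by linarith

/-- comparison of two sums over the primes -/
theorem transfer (t r : ℕ → ℝ) (E : ℕ) (h2 : ∀ p : ℕ, p.Prime → |r p - t p| ≤ 2)
    (hE : ∀ p : ℕ, p.Prime → E < p → |r p - t p| ≤ 2 / p) (d : ℝ)
    (h : Tendsto (fun x : ℕ => (∑ p ∈ PP x, t p) / (Nat.primeCounting x : ℝ)) atTop (𝓝 d)) :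
    Tendsto (fun x : ℕ => (∑ p ∈ PP x, r p) / (Nat.primeCounting x : ℝ)) atTop (𝓝 d) := by
  classical
  rw [Metric.tendsto_atTop] at h ⊢
  intro ε hε
  obtain ⟨x₁, hx₁⟩ := h (ε / 4) (by linarith)
  obtain ⟨T₀, hT₀⟩ := exists_nat_gt (2 / (ε / 4))
  obtain ⟨T, hT⟩ : ∃ T, T = T₀ + E + 1 := ⟨_, rfl⟩
  have hT0 : (0 : ℝ) < T := by rw [hT]; positivity
  have hT1 : 2 / (T : ℝ) ≤ ε / 4 := by
    rw [div_lt_iff₀ (by linarith)] at hT₀
    rw [div_le_iff₀ hT0]
    have : (T₀ : ℝ) ≤ T := by exact_mod_cast (by omega : T₀ ≤ T)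
    nlinarith
  obtain ⟨x₂, hx₂⟩ := eventually_atTop.1 (pi_tendsto.eventually_ge_atTop (2 * (T + 1) / (ε / 4) + 1))
  refine ⟨x₁ + x₂, fun x hx => ?_⟩
  have q1 := hx₁ x (by omega)
  have q2 := hx₂ x (by omega)
  have hcard : ((PP x).card : ℝ) = Nat.primeCounting x := by rw [card_PP]
  obtain ⟨π, hπ⟩ : ∃ π : ℝ, π = Nat.primeCounting x := ⟨_, rfl⟩
  rw [← hπ] at q1 q2 hcard ⊢
  have hpos : 0 < 2 * ((T : ℝ) + 1) / (ε / 4) := by positivity
  have hπ0 : 0 < π := by linarith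
  rw [Real.dist_eq] at q1 ⊢
  have h1 : |(∑ p ∈ PP x, r p) / π - (∑ p ∈ PP x, t p) / π| ≤ ε / 4 + ε / 4 := by
    rw [← sub_div, ← sum_sub_distrib, abs_div, abs_of_pos hπ0, div_le_iff₀ hπ0]
    refine (abs_sum_le_sum_abs _ _).trans ?_
    rw [← sum_filter_add_sum_filter_not (PP x) (fun p => p ≤ T)]
    have e1 : ∑ p ∈ (PP x).filter (fun p => p ≤ T), |r p - t p| ≤ 2 * (T + 1) := by
      refine (sum_le_sum (g := fun _ => (2 : ℝ)) fun p hp => ?_).trans ?_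
      · rw [mem_filter] at hp
        unfold PP at hp
        exact h2 p (mem_filter.1 hp.1).2
      · rw [sum_const, nsmul_eq_mul, mul_comm]
        have : ((PP x).filter (fun p => p ≤ T)).card ≤ (range (T + 1)).card := by
          apply card_le_card
          intro p hp
          rw [mem_filter] at hp
          exact mem_range.2 (by omega)
        rw [card_range] at this
        have h3 : (((PP x).filter (fun p => p ≤ T)).card : ℝ) ≤ T + 1 := by exact_mod_cast this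
        linarith
    have e2 : ∑ p ∈ (PP x).filter (fun p => ¬ p ≤ T), |r p - t p| ≤ ε / 4 * π := by
      refine (sum_le_sum (g := fun _ => ε / 4) fun p hp => ?_).trans ?_
      · rw [mem_filter] at hp
        unfold PP at hp
        refine (hE p (mem_filter.1 hp.1).2 (by omega)).trans (le_trans ?_ hT1)
        have h3 : (T : ℝ) ≤ p := by exact_mod_cast (by omega : T ≤ p)
        exact div_le_div_of_nonneg_left (by norm_num) hT0 h3
      · rw [sum_const, nsmul_eq_mul, mul_comm]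
        refine mul_le_mul_of_nonneg_left ?_ (by linarith)
        rw [← hcard]
        exact_mod_cast card_filter_le _ _
    have e3 : 2 * ((T : ℝ) + 1) ≤ ε / 4 * π := by
      have : 2 * ((T : ℝ) + 1) / (ε / 4) ≤ π := by linarith
      rw [div_le_iff₀ (by linarith)] at this
      linarith
    linarith
  calc |(∑ p ∈ PP x, r p) / π - d| = |((∑ p ∈ PP x, r p) / π - (∑ p ∈ PP x, t p) / π) +
        ((∑ p ∈ PP x, t p) / π - d)| := by ring_nf
    _ ≤ (ε / 4 + ε / 4) + ε / 4 := (abs_add_le _ _).trans (add_le_add h1 q1.le)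
    _ < ε := by linarith

/-- the set of the primes -/
def Pr : Set ℕ := {p | p.Prime}

lemma idx_Pr (x : ℕ) : idx Pr x = PP x := by
  classical
  unfold idx PP
  ext p
  simp only [mem_filter, mem_Icc, mem_range]
  constructor
  · rintro ⟨⟨_, h2⟩, h3⟩
    exact ⟨by omega, h3⟩
  · rintro ⟨h1, h2⟩
    exact ⟨⟨h2.one_lt.le, by omega⟩, h2⟩

lemma near (p : ℕ) (hp : p.Prime) (w : ℝ) (h0 : 0 ≤ w) (h2 : w ≤ 2) :
    |(Nat.totient (p - 1) : ℝ) * w / p - (Nat.totient (p - 1) : ℝ) / ((p - 1 : ℕ) : ℝ) * w| ≤ 2 / p := by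
  have hp2 := hp.two_le
  have hp0 : (0 : ℝ) < p := by exact_mod_cast hp.pos
  have hq0 : (0 : ℝ) < ((p - 1 : ℕ) : ℝ) := by exact_mod_cast (by omega : 0 < p - 1)
  have hpq : (p : ℝ) = ((p - 1 : ℕ) : ℝ) + 1 := by exact_mod_cast (by omega : p = p - 1 + 1)
  have hφ : (Nat.totient (p - 1) : ℝ) ≤ ((p - 1 : ℕ) : ℝ) := by exact_mod_cast Nat.totient_le _
  have hφ0 : (0 : ℝ) ≤ Nat.totient (p - 1) := Nat.cast_nonneg _
  obtain ⟨q, hq⟩ : ∃ q : ℝ, q = ((p - 1 : ℕ) : ℝ) := ⟨_, rfl⟩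
  obtain ⟨f, hf⟩ : ∃ f : ℝ, f = (Nat.totient (p - 1) : ℝ) := ⟨_, rfl⟩
  rw [← hq] at hq0 hpq hφ ⊢
  rw [← hf] at hφ hφ0 ⊢
  rw [hpq]
  have h1 : f * w / (q + 1) - f / q * w = -(f * w / (q * (q + 1))) := by
    field_simp
    ring
  rw [h1, abs_neg, abs_of_nonneg (by positivity), div_le_div_iff₀ (by positivity) (by positivity)]
  nlinarith [mul_nonneg hφ0 h0, mul_le_mul hφ h2 h0 hq0.le]

theorem lim_GP : Tendsto (fun x : ℕ => expected Pr (fun p => p) GP x / (Nat.primeCounting x : ℝ)) atTop (𝓝 artinC) := by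
  unfold expected
  simp only [idx_Pr]
  refine transfer (fun p => (Nat.totient (p - 1) : ℝ) / ((p - 1 : ℕ) : ℝ)) _ 0 ?_ ?_ artinC totient_avg
  · intro p hp
    rw [rho_GP p hp]
    have h := near p hp 1 zero_le_one (by norm_num)
    rw [mul_one, mul_one] at h
    refine h.trans ?_
    have : (1 : ℝ) ≤ p := by exact_mod_cast hp.one_lt.le
    rw [div_le_iff₀ (by linarith)]
    linarith
  · intro p hp _
    rw [rho_GP p hp]
    have h := near p hp 1 zero_le_one (by norm_num)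
    rwa [mul_one, mul_one] at h

theorem lim_GD (D : ℤ) (hD : Squarefree D) (hD1 : D % 4 = 1) (hD2 : D ≠ 1) :
    Tendsto (fun x : ℕ => expected Pr (fun p => p) (GD D) x / (Nat.primeCounting x : ℝ)) atTop
      (𝓝 (Pool.Agent.H730R2.AA.dens D)) := by
  classical
  have hm := Pool.Agent.H730R2.AA.main_lim D hD hD1 hD2
  unfold expected
  simp only [idx_Pr]
  have hjac : ∀ p : ℕ, p.Prime → 0 ≤ 1 - (jacobiSym D p : ℝ) ∧ 1 - (jacobiSym D p : ℝ) ≤ 2 := by
    intro p _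
    rcases jacobiSym.trichotomy D p with h | h | h <;> rw [h] <;> norm_num
  refine transfer (fun p => if p ≠ 2 ∧ ¬ ((p : ℤ) ∣ D) then
    Pool.Agent.H730R2.AA.rho p * (1 - (jacobiSym D p : ℝ)) else 0) _ (D.natAbs + 2) ?_ ?_ _ ?_
  · intro p hp
    by_cases hc : p ≠ 2 ∧ ¬ ((p : ℤ) ∣ D)
    · rw [if_pos hc, rho_GD D p hp hc.1 hc.2]
      unfold Pool.Agent.H730R2.AA.rho
      refine (near p hp _ (hjac p hp).1 (hjac p hp).2).trans ?_
      have : (1 : ℝ) ≤ p := by exact_mod_cast hp.one_lt.le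
      rw [div_le_iff₀ (by linarith)]
      linarith
    · rw [if_neg hc, sub_zero, abs_of_nonneg (rho_nonneg _ _ _)]
      exact (rho_le_one _ _ _).trans (by norm_num)
  · intro p hp hpE
    have hc : p ≠ 2 ∧ ¬ ((p : ℤ) ∣ D) := by
      refine ⟨by omega, fun h => ?_⟩
      have h1 : p ∣ D.natAbs := Int.natCast_dvd.1 h
      have h2 := Nat.le_of_dvd (Int.natAbs_pos.2 hD.ne_zero) h1
      omega
    rw [if_pos hc, rho_GD D p hp hc.1 hc.2]
    unfold Pool.Agent.H730R2.AA.rho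
    exact near p hp _ (hjac p hp).1 (hjac p hp).2
  · refine hm.congr fun x => ?_
    congr 1
    unfold Pool.Agent.H730R2.AA.mainT Pool.Agent.H730R2.AA.PR PP
    rw [← sum_filter, filter_filter]

end Pool.Agent.V11113.MR
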