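import Mathlib

set_option autoImplicit false

/-! The additive energies of families of residues with small exponential sums. -/

namespace Pool.Agent.V11113.MR

open Finset

lemma char_sum {m : ℕ} [NeZero m] {κ : Type*} (t : Finset κ) (u : κ → ZMod m) (w : ZMod m) :
    (ZMod.stdAddChar (w * ∑ j ∈ t, u j) : ℂ) = ∏ j ∈ t, (ZMod.stdAddChar (w * u j) : ℂ) := by
  classical
  induction t using Finset.induction_on with
  | empty => simp
  | insert a t ha ih => rw [sum_insert ha, prod_insert ha, mul_add, AddChar.map_add_eq_mul, ih]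

lemma norm_pow_sum {m : ℕ} [NeZero m] {ι : Type*} (s : Finset ι) (v : ι → ZMod m) (k : ℕ) (w : ZMod m) :
    ((‖∑ i ∈ s, (ZMod.stdAddChar (w * v i) : ℂ)‖ ^ (2 * k) : ℝ) : ℂ) =
      ∑ q ∈ (Fintype.piFinset fun _ : Fin k => s) ×ˢ (Fintype.piFinset fun _ : Fin k => s),
        (ZMod.stdAddChar (w * (∑ i, v (q.1 i) - ∑ i, v (q.2 i))) : ℂ) := by
  classical
  have h1 : (∑ i ∈ s, (ZMod.stdAddChar (w * v i) : ℂ)) ^ k =
      ∑ f ∈ Fintype.piFinset fun _ : Fin k => s, (ZMod.stdAddChar (w * ∑ i, v (f i)) : ℂ) := by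
    rw [Finset.sum_pow']
    refine sum_congr rfl fun f _ => ?_
    rw [char_sum]
  have h2 : ((‖∑ i ∈ s, (ZMod.stdAddChar (w * v i) : ℂ)‖ ^ (2 * k) : ℝ) : ℂ) =
      (∑ i ∈ s, (ZMod.stdAddChar (w * v i) : ℂ)) ^ k *
        (starRingEnd ℂ) ((∑ i ∈ s, (ZMod.stdAddChar (w * v i) : ℂ)) ^ k) := by
    rw [Complex.mul_conj, Complex.normSq_eq_norm_sq, norm_pow]
    congr 1
    rw [← pow_mul, mul_comm]
  rw [h2, h1, map_sum, sum_mul_sum, ← sum_product']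
  refine sum_congr rfl fun q _ => ?_
  have h3 : (starRingEnd ℂ) (ZMod.stdAddChar (w * ∑ i, v (q.2 i)) : ℂ) =
      (ZMod.stdAddChar (-(w * ∑ i, v (q.2 i))) : ℂ) := by
    rw [AddChar.map_neg_eq_conj]
  rw [h3, ← AddChar.map_add_eq_mul]
  congr 1
  ring

open Classical in
/-- the energies modulo `m` -/
theorem energy_mod {m : ℕ} [NeZero m] {ι : Type*} (s : Finset ι) (v : ι → ZMod m) (δ : ℝ)
    (hsum : ∀ w : ZMod m, w ≠ 0 → ‖∑ i ∈ s, (ZMod.stdAddChar (w * v i) : ℂ)‖ ≤ s.card * (m : ℝ) ^ (-δ))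
    (k : ℕ) (hk : 1 ≤ 2 * k * δ) :
    ((((Fintype.piFinset fun _ : Fin k => s) ×ˢ (Fintype.piFinset fun _ : Fin k => s)).filter
      (fun q => ∑ i, v (q.1 i) = ∑ i, v (q.2 i))).card : ℝ) * m ≤ 2 * (s.card : ℝ) ^ (2 * k) := by
  have hm0 : 0 < m := Nat.pos_of_ne_zero (NeZero.ne m)
  have hm : (0 : ℝ) < m := by exact_mod_cast hm0
  have hm1 : (1 : ℝ) ≤ m := by exact_mod_cast hm0
  have h1 : ∑ w : ZMod m, ((‖∑ i ∈ s, (ZMod.stdAddChar (w * v i) : ℂ)‖ ^ (2 * k) : ℝ) : ℂ) =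
      ((((Fintype.piFinset fun _ : Fin k => s) ×ˢ (Fintype.piFinset fun _ : Fin k => s)).filter
      (fun q => ∑ i, v (q.1 i) = ∑ i, v (q.2 i))).card : ℂ) * m := by
    rw [sum_congr rfl (fun w _ => norm_pow_sum s v k w), sum_comm]
    have h2 : ∀ q ∈ (Fintype.piFinset fun _ : Fin k => s) ×ˢ (Fintype.piFinset fun _ : Fin k => s),
        ∑ w : ZMod m, (ZMod.stdAddChar (w * (∑ i, v (q.1 i) - ∑ i, v (q.2 i))) : ℂ) =
        if ∑ i, v (q.1 i) = ∑ i, v (q.2 i) then (m : ℂ) else 0 := by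
      intro q _
      have h3 := AddChar.sum_mulShift (∑ i, v (q.1 i) - ∑ i, v (q.2 i)) (ZMod.isPrimitive_stdAddChar m)
      rw [h3, ZMod.card]
      simp only [sub_eq_zero, Nat.cast_ite, Nat.cast_zero]
    rw [sum_congr rfl h2, ← sum_filter, sum_const, nsmul_eq_mul]
  have h4 : ∑ w : ZMod m, ‖∑ i ∈ s, (ZMod.stdAddChar (w * v i) : ℂ)‖ ^ (2 * k) =
      ((((Fintype.piFinset fun _ : Fin k => s) ×ˢ (Fintype.piFinset fun _ : Fin k => s)).filter
      (fun q => ∑ i, v (q.1 i) = ∑ i, v (q.2 i))).card : ℝ) * m := by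
    exact_mod_cast h1
  rw [← h4, ← Finset.add_sum_erase _ _ (Finset.mem_univ (0 : ZMod m))]
  have h5 : ‖∑ i ∈ s, (ZMod.stdAddChar ((0 : ZMod m) * v i) : ℂ)‖ ^ (2 * k) = (s.card : ℝ) ^ (2 * k) := by
    simp
  have h6 : ∑ w ∈ (univ : Finset (ZMod m)).erase 0, ‖∑ i ∈ s, (ZMod.stdAddChar (w * v i) : ℂ)‖ ^ (2 * k) ≤
      (s.card : ℝ) ^ (2 * k) := by
    have h7 : ∀ w ∈ (univ : Finset (ZMod m)).erase 0, ‖∑ i ∈ s, (ZMod.stdAddChar (w * v i) : ℂ)‖ ^ (2 * k) ≤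
        (s.card : ℝ) ^ (2 * k) / m := by
      intro w hw
      have h8 := hsum w (Finset.ne_of_mem_erase hw)
      refine (pow_le_pow_left₀ (norm_nonneg _) h8 _).trans ?_
      rw [mul_pow, div_eq_mul_inv]
      refine mul_le_mul_of_nonneg_left ?_ (by positivity)
      rw [← Real.rpow_natCast, ← Real.rpow_mul hm.le, ← Real.rpow_neg_one]
      refine Real.rpow_le_rpow_of_exponent_le hm1 ?_
      push_cast
      nlinarith
    refine (Finset.sum_le_sum h7).trans ?_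
    rw [sum_const, nsmul_eq_mul, Finset.card_erase_of_mem (Finset.mem_univ _), Finset.card_univ, ZMod.card]
    have h9 : ((m - 1 : ℕ) : ℝ) ≤ m := by exact_mod_cast Nat.sub_le m 1
    calc ((m - 1 : ℕ) : ℝ) * ((s.card : ℝ) ^ (2 * k) / m) ≤ m * ((s.card : ℝ) ^ (2 * k) / m) := by gcongr
      _ = (s.card : ℝ) ^ (2 * k) := by field_simp
  rw [h5]
  linarith

open Classical in
/-- the energies of the least residues, shifted -/
theorem energy_int {m : ℕ} [NeZero m] {ι : Type*} (s : Finset ι) (v : ι → ZMod m) (δ : ℝ)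
    (hsum : ∀ w : ZMod m, w ≠ 0 → ‖∑ i ∈ s, (ZMod.stdAddChar (w * v i) : ℂ)‖ ≤ s.card * (m : ℝ) ^ (-δ))
    (k : ℕ) (hk : 1 ≤ 2 * k * δ) (V : ι → ℤ) (hV : ∀ i ∈ s, ∀ j ∈ s, ((V i - V j : ℤ) : ZMod m) = v i - v j) :
    ((((Fintype.piFinset fun _ : Fin k => s) ×ˢ (Fintype.piFinset fun _ : Fin k => s)).filter
      (fun q => ∑ i, V (q.1 i) = ∑ i, V (q.2 i))).card : ℝ) * m ≤ 2 * (s.card : ℝ) ^ (2 * k) := by
  refine le_trans ?_ (energy_mod s v δ hsum k hk)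
  refine mul_le_mul_of_nonneg_right ?_ (Nat.cast_nonneg _)
  have : (((Fintype.piFinset fun _ : Fin k => s) ×ˢ (Fintype.piFinset fun _ : Fin k => s)).filter
      (fun q => ∑ i, V (q.1 i) = ∑ i, V (q.2 i))) ⊆
      (((Fintype.piFinset fun _ : Fin k => s) ×ˢ (Fintype.piFinset fun _ : Fin k => s)).filter
      (fun q => ∑ i, v (q.1 i) = ∑ i, v (q.2 i))) := by
    intro q hq
    rw [mem_filter, mem_product, Fintype.mem_piFinset, Fintype.mem_piFinset] at hq ⊢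
    refine ⟨hq.1, ?_⟩
    have h1 : ∑ i, (V (q.1 i) - V (q.2 i)) = 0 := by rw [sum_sub_distrib, hq.2, sub_self]
    have h2 : ((∑ i, (V (q.1 i) - V (q.2 i)) : ℤ) : ZMod m) = 0 := by rw [h1]; simp
    rw [Int.cast_sum, sum_congr rfl (fun i _ => hV _ (hq.1.1 i) _ (hq.1.2 i)), sum_sub_distrib, sub_eq_zero] at h2
    exact h2
  exact_mod_cast card_le_card this

/-- the energies of a family of integers -/
theorem energy_card {m : ℕ} [NeZero m] {ι : Type*} [Fintype ι] (v : ι → ZMod m) (δ : ℝ)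
    (hsum : ∀ w : ZMod m, w ≠ 0 → ‖∑ i, (ZMod.stdAddChar (w * v i) : ℂ)‖ ≤ Fintype.card ι * (m : ℝ) ^ (-δ))
    (k : ℕ) (hk : 1 ≤ 2 * k * δ) (V : ι → ℤ) (hV : ∀ i j, ((V i - V j : ℤ) : ZMod m) = v i - v j) :
    (Nat.card {q : (Fin k → ι) × (Fin k → ι) // ∑ j, V (q.1 j) = ∑ j, V (q.2 j)} : ℝ) * m ≤
      2 * (Fintype.card ι : ℝ) ^ (2 * k) := by
  classical
  have h := energy_int (univ : Finset ι) v δ (by rw [Finset.card_univ]; exact hsum) k hk V (fun i _ j _ => hV i j)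
  rw [Finset.card_univ] at h
  refine le_trans (le_of_eq ?_) h
  congr 2
  rw [Nat.card_eq_fintype_card, Fintype.card_subtype]
  congr 1

end Pool.Agent.V11113.MR
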