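import Pool.Agent.V11113.MP.Loc

set_option autoImplicit false

/-! Equidistribution modulo all small `q` of the least residues modulo `m` of a family with small
exponential sums. -/

namespace Pool.Agent.V11113.MR

open Finset
open Pool.Agent.TH668.Bil (dz dz_le geom)
open Pool.Agent.V11113.MP (local_sum)

/-- the saving -/
noncomputable def kap (m : ℕ) (δ : ℝ) (q : ℝ) : ℝ := (m : ℝ) ^ (-δ) * (6 + 4 * Real.log m) + 2 * q / m

lemma sum_far (m : ℕ) [NeZero m] {ι : Type*} (s : Finset ι) (v : ι → ZMod m) (δ : ℝ)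
    (hsum : ∀ w : ZMod m, w ≠ 0 → ‖∑ i ∈ s, (ZMod.stdAddChar (w * v i) : ℂ)‖ ≤ s.card * (m : ℝ) ^ (-δ))
    (θ : ℝ) (q : ℝ) (hq : 0 < q) (h : ∀ j : ℤ, 1 / q ≤ |θ - j|) :
    ‖∑ i ∈ s, Pool.Agent.H469R2.NK.e ((v i).val * θ)‖ ≤ s.card * kap m δ q := by
  have hm0n : 0 < m := Nat.pos_of_ne_zero (NeZero.ne m)
  have hm0 : (0 : ℝ) < m := by exact_mod_cast hm0n
  have hdz : 1 / q ≤ dz θ := h _
  have hdz0 : 0 < dz θ := lt_of_lt_of_le (by positivity) hdz
  have hloc := local_sum m s v (s.card * (m : ℝ) ^ (-δ)) (by positivity) hsum 0 θ m le_rfl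
  have hfil : s.filter (fun i => (v i - 0).val < m) = s := by
    rw [Finset.filter_true_of_mem]
    intro i _
    exact ZMod.val_lt _
  rw [hfil] at hloc
  simp only [sub_zero] at hloc
  have hgeom := geom m θ hdz0
  set S : ℂ := ∑ i ∈ s, Pool.Agent.H469R2.NK.e ((v i).val * θ) with hS
  set T : ℂ := ∑ t ∈ Finset.range m, Pool.Agent.H469R2.NK.e (t * θ) with hT
  have hS1 : ‖S‖ ≤ s.card * (m : ℝ) ^ (-δ) / m * (2 * (m + 2 * m * (1 + Real.log m))) +
      s.card / m * (2 / dz θ) := by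
    have h1 : S = (S - (s.card / m : ℂ) * T) + (s.card / m : ℂ) * T := by ring
    rw [h1]
    refine (norm_add_le _ _).trans ?_
    refine add_le_add hloc ?_
    rw [norm_mul, norm_div, Complex.norm_natCast, Complex.norm_natCast]
    exact mul_le_mul_of_nonneg_left hgeom (div_nonneg (Nat.cast_nonneg _) (Nat.cast_nonneg _))
  have h2 : 2 / dz θ ≤ 2 * q := by
    rw [div_le_iff₀ hdz0]
    rw [div_le_iff₀ hq] at hdz
    nlinarith
  refine hS1.trans ?_
  unfold kap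
  have h3 : (s.card : ℝ) / m * (2 / dz θ) ≤ s.card / m * (2 * q) :=
    mul_le_mul_of_nonneg_left h2 (div_nonneg (Nat.cast_nonneg _) (Nat.cast_nonneg _))
  refine (add_le_add_right h3 _).trans (le_of_eq ?_)
  field_simp
  ring

/-- the characters modulo `q` -/
lemma char_val (q : ℕ) [NeZero q] (b : ZMod q) (t : ℕ) :
    (ZMod.stdAddChar (b * (t : ZMod q)) : ℂ) = Pool.Agent.H469R2.NK.e ((t : ℝ) * ((b.val : ℝ) / q)) := by
  have h1 : b * (t : ZMod q) = ((((b.val : ℤ) * t) : ℤ) : ZMod q) := by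
    push_cast
    rw [ZMod.natCast_zmod_val]
  rw [h1, ZMod.stdAddChar_coe]
  unfold Pool.Agent.H469R2.NK.e
  congr 1
  push_cast
  ring

lemma char_far (q : ℕ) [NeZero q] (b : ZMod q) (hb : b ≠ 0) (j : ℤ) :
    1 / (q : ℝ) ≤ |(b.val : ℝ) / q - j| := by
  have hq0n : 0 < q := Nat.pos_of_ne_zero (NeZero.ne q)
  have hq0 : (0 : ℝ) < q := by exact_mod_cast hq0n
  have h1 : (b.val : ℝ) / q - j = (((b.val : ℤ) - j * q : ℤ) : ℝ) / q := by
    push_cast
    field_simp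
  have h2 : (b.val : ℤ) - j * q ≠ 0 := by
    intro h
    apply hb
    have h3 : (((b.val : ℤ) - j * q : ℤ) : ZMod q) = 0 := by rw [h]; simp
    push_cast at h3
    rw [ZMod.natCast_zmod_val, ZMod.natCast_self, mul_zero, sub_zero] at h3
    exact h3
  rw [h1, abs_div, abs_of_pos hq0]
  apply div_le_div_of_nonneg_right _ hq0.le
  have h4 : 1 ≤ |(b.val : ℤ) - j * q| := Int.one_le_abs h2
  exact_mod_cast h4

/-- equidistribution modulo `q` -/
theorem equi (m : ℕ) [NeZero m] {ι : Type*} (s : Finset ι) (v : ι → ZMod m) (δ : ℝ)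
    (hsum : ∀ w : ZMod m, w ≠ 0 → ‖∑ i ∈ s, (ZMod.stdAddChar (w * v i) : ℂ)‖ ≤ s.card * (m : ℝ) ^ (-δ))
    (a : ℤ) (q : ℕ) [NeZero q] (g : ZMod q → ℝ) (hg : ∀ r, |g r| ≤ 1) :
    |∑ i ∈ s, g ((a + ((v i).val : ℤ) : ℤ) : ZMod q) - s.card / q * ∑ r, g r| ≤
      s.card * (q * kap m δ q) := by
  classical
  have hq0n : 0 < q := Nat.pos_of_ne_zero (NeZero.ne q)
  have hq0 : (0 : ℝ) < q := by exact_mod_cast hq0n
  have hqc : (q : ℂ) ≠ 0 := by exact_mod_cast hq0n.ne'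
  have hm0 : (0 : ℝ) < m := by exact_mod_cast Nat.pos_of_ne_zero (NeZero.ne m)
  obtain ⟨n, hn⟩ : ∃ n : ι → ZMod q, n = fun i => ((a + ((v i).val : ℤ) : ℤ) : ZMod q) := ⟨_, rfl⟩
  have hn' : ∀ i, ((a + ((v i).val : ℤ) : ℤ) : ZMod q) = n i := fun i => by rw [hn]
  simp only [hn']
  have h1 : ∀ x : ZMod q, (g x : ℂ) = 1 / q * ∑ b : ZMod q,
      (∑ r : ZMod q, (g r : ℂ) * (ZMod.stdAddChar (b * (-r)) : ℂ)) * (ZMod.stdAddChar (b * x) : ℂ) := by
    intro x
    have h2 : ∀ b : ZMod q, (∑ r : ZMod q, (g r : ℂ) * (ZMod.stdAddChar (b * (-r)) : ℂ)) *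
        (ZMod.stdAddChar (b * x) : ℂ) = ∑ r : ZMod q, (g r : ℂ) * (ZMod.stdAddChar (b * (x - r)) : ℂ) := by
      intro b
      rw [sum_mul]
      refine sum_congr rfl fun r _ => ?_
      rw [mul_assoc, ← AddChar.map_add_eq_mul]
      congr 2
      ring_nf
    rw [sum_congr rfl (fun b _ => h2 b), sum_comm]
    have h3 : ∀ r : ZMod q, ∑ b : ZMod q, (g r : ℂ) * (ZMod.stdAddChar (b * (x - r)) : ℂ) =
        if x = r then (g r : ℂ) * q else 0 := by
      intro r
      rw [← mul_sum, AddChar.sum_mulShift (x - r) (ZMod.isPrimitive_stdAddChar q), ZMod.card]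
      simp only [sub_eq_zero, Nat.cast_ite, Nat.cast_zero, mul_ite, mul_zero]
    rw [sum_congr rfl (fun r _ => h3 r), sum_ite_eq univ x]
    simp only [mem_univ, if_true]
    field_simp
  have h4 : ((∑ i ∈ s, g (n i) : ℝ) : ℂ) = 1 / q * ∑ b : ZMod q,
      (∑ r : ZMod q, (g r : ℂ) * (ZMod.stdAddChar (b * (-r)) : ℂ)) *
        ∑ i ∈ s, (ZMod.stdAddChar (b * n i) : ℂ) := by
    push_cast
    rw [sum_congr rfl (fun i _ => h1 (n i)), ← mul_sum, sum_comm]
    congr 1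
    refine sum_congr rfl fun b _ => ?_
    rw [mul_sum]
  have h5 : ((∑ i ∈ s, g (n i) - s.card / q * ∑ r, g r : ℝ) : ℂ) = 1 / q * ∑ b ∈ (univ : Finset (ZMod q)).erase 0,
      (∑ r : ZMod q, (g r : ℂ) * (ZMod.stdAddChar (b * (-r)) : ℂ)) *
        ∑ i ∈ s, (ZMod.stdAddChar (b * n i) : ℂ) := by
    rw [Complex.ofReal_sub, h4, ← Finset.add_sum_erase _ _ (Finset.mem_univ (0 : ZMod q))]
    have h6 : ∑ i ∈ s, (ZMod.stdAddChar ((0 : ZMod q) * n i) : ℂ) = s.card := by simp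
    have h7 : ∑ r : ZMod q, (g r : ℂ) * (ZMod.stdAddChar ((0 : ZMod q) * (-r)) : ℂ) = ∑ r : ZMod q, (g r : ℂ) := by simp
    rw [h6, h7]
    push_cast
    ring
  have h8 : ‖((∑ i ∈ s, g (n i) - s.card / q * ∑ r, g r : ℝ) : ℂ)‖ ≤ s.card * (q * kap m δ q) := by
    rw [h5, norm_mul, norm_div, norm_one, Complex.norm_natCast]
    have h9 : ∀ b ∈ (univ : Finset (ZMod q)).erase 0,
        ‖(∑ r : ZMod q, (g r : ℂ) * (ZMod.stdAddChar (b * (-r)) : ℂ)) *
        ∑ i ∈ s, (ZMod.stdAddChar (b * n i) : ℂ)‖ ≤ q * (s.card * kap m δ q) := by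
      intro b hb
      have hb0 := Finset.ne_of_mem_erase hb
      rw [norm_mul]
      refine mul_le_mul ?_ ?_ (norm_nonneg _) hq0.le
      · refine (norm_sum_le _ _).trans ?_
        have h10 : ∀ r ∈ (univ : Finset (ZMod q)), ‖(g r : ℂ) * (ZMod.stdAddChar (b * (-r)) : ℂ)‖ ≤ 1 := by
          intro r _
          rw [norm_mul, Complex.norm_real, Real.norm_eq_abs, AddChar.norm_apply, mul_one]
          exact hg r
        refine (sum_le_sum h10).trans (le_of_eq ?_)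
        rw [sum_const, nsmul_eq_mul, mul_one, card_univ, ZMod.card]
      · have h11 : ∑ i ∈ s, (ZMod.stdAddChar (b * n i) : ℂ) =
            (ZMod.stdAddChar (b * (a : ZMod q)) : ℂ) *
              ∑ i ∈ s, Pool.Agent.H469R2.NK.e ((v i).val * ((b.val : ℝ) / q)) := by
          rw [mul_sum]
          refine sum_congr rfl fun i _ => ?_
          rw [← char_val, ← AddChar.map_add_eq_mul, hn]
          congr 1
          push_cast
          ring
        rw [h11, norm_mul, AddChar.norm_apply, one_mul]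
        exact sum_far m s v δ hsum _ q hq0 (char_far q b hb0)
    have h12 : ‖∑ b ∈ (univ : Finset (ZMod q)).erase 0,
        (∑ r : ZMod q, (g r : ℂ) * (ZMod.stdAddChar (b * (-r)) : ℂ)) *
        ∑ i ∈ s, (ZMod.stdAddChar (b * n i) : ℂ)‖ ≤ q * (q * (s.card * kap m δ q)) := by
      refine (norm_sum_le _ _).trans ((sum_le_sum h9).trans ?_)
      rw [sum_const, nsmul_eq_mul, Finset.card_erase_of_mem (Finset.mem_univ _), card_univ, ZMod.card]
      have h13 : ((q - 1 : ℕ) : ℝ) ≤ q := by exact_mod_cast Nat.sub_le q 1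
      refine mul_le_mul_of_nonneg_right h13 ?_
      have : 0 ≤ kap m δ q := by
        unfold kap
        have := Real.log_natCast_nonneg m
        positivity
      exact mul_nonneg hq0.le (mul_nonneg (Nat.cast_nonneg _) this)
    calc 1 / (q : ℝ) * ‖∑ b ∈ (univ : Finset (ZMod q)).erase 0,
        (∑ r : ZMod q, (g r : ℂ) * (ZMod.stdAddChar (b * (-r)) : ℂ)) *
        ∑ i ∈ s, (ZMod.stdAddChar (b * n i) : ℂ)‖ ≤ 1 / (q : ℝ) * (q * (q * (s.card * kap m δ q))) :=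
          mul_le_mul_of_nonneg_left h12 (one_div_nonneg.2 hq0.le)
      _ = s.card * (q * kap m δ q) := by
          rw [one_div, ← mul_assoc, inv_mul_cancel₀ hq0.ne', one_mul]
          ring
  rw [Complex.norm_real, Real.norm_eq_abs] at h8
  exact h8

end Pool.Agent.V11113.MR
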