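import Mathlib

set_option autoImplicit false

/-! From the bound for every single `x` to all `x` simultaneously, for counting functions. -/

namespace Pool.Agent.V11113.MR

open Finset

open Classical in
theorem grid {ι : Type*} (s : Finset ι) (N : ι → ℕ → ℝ) (S : ℕ → ℝ) (hN : ∀ i, Monotone (N i))
    (hS : Monotone S) (ε : ℝ) (h0 : 0 < ε) (h1 : ε ≤ 1) (C : ℝ) (hC : 0 ≤ C) (Y : ℕ)
    (hch : ∀ y ≤ Y, 1 ≤ S y → ((s.filter (fun i => ε * S y < |N i y - S y|)).card : ℝ) ≤ C / S y)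
    (X : ℕ) (hX : 1 ≤ S X) :
    ((s.filter (fun i => ∃ x, X ≤ x ∧ x ≤ Y ∧ 3 * ε * S x < |N i x - S x|)).card : ℝ) ≤
      4 * C / ε / S X := by
  have hSX : 0 < S X := by linarith
  have hn : ∀ x, ∃ n : ℕ, X ≤ x → (1 + ε) ^ n ≤ S x / S X ∧ S x / S X < (1 + ε) ^ (n + 1) := by
    intro x
    by_cases hx : X ≤ x
    · have h2 : 1 ≤ S x / S X := by
        rw [le_div_iff₀ hSX, one_mul]
        exact hS hx
      obtain ⟨n, hn⟩ := exists_nat_pow_near h2 (by linarith : 1 < 1 + ε)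
      exact ⟨n, fun _ => hn⟩
    · exact ⟨0, fun h => absurd h hx⟩
  choose n hn using hn
  obtain ⟨F, hF⟩ : ∃ F : ℕ → Finset ℕ, F = fun j => (Icc X Y).filter (fun x => n x = j) := ⟨_, rfl⟩
  obtain ⟨J, hJ⟩ : ∃ J, J = (Icc X Y).image n := ⟨_, rfl⟩
  have hFne : ∀ j ∈ J, (F j).Nonempty := by
    intro j hj
    rw [hJ, mem_image] at hj
    obtain ⟨x, hx, hxj⟩ := hj
    exact ⟨x, by rw [hF]; exact mem_filter.2 ⟨hx, hxj⟩⟩
  obtain ⟨lo, hlo⟩ : ∃ lo : ℕ → ℕ, ∀ j (h : (F j).Nonempty), lo j = (F j).min' h :=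
    ⟨fun j => if h : (F j).Nonempty then (F j).min' h else 0, fun j h => dif_pos h⟩
  obtain ⟨hi, hhi⟩ : ∃ hi : ℕ → ℕ, ∀ j (h : (F j).Nonempty), hi j = (F j).max' h :=
    ⟨fun j => if h : (F j).Nonempty then (F j).max' h else 0, fun j h => dif_pos h⟩
  have hlo1 : ∀ j ∈ J, lo j ∈ F j := fun j hj => by rw [hlo j (hFne j hj)]; exact min'_mem _ _
  have hhi1 : ∀ j ∈ J, hi j ∈ F j := fun j hj => by rw [hhi j (hFne j hj)]; exact max'_mem _ _
  have hmem : ∀ j x, x ∈ F j → X ≤ x ∧ x ≤ Y ∧ S X * (1 + ε) ^ j ≤ S x ∧ S x < S X * (1 + ε) ^ j * (1 + ε) := by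
    intro j x hx
    rw [hF] at hx
    simp only [mem_filter, mem_Icc] at hx
    obtain ⟨⟨h2, h3⟩, h4⟩ := hx
    obtain ⟨h5, h6⟩ := hn x h2
    rw [h4, le_div_iff₀ hSX] at h5
    rw [h4, div_lt_iff₀ hSX, pow_succ] at h6
    exact ⟨h2, h3, by linarith, by linarith⟩
  obtain ⟨B, hB⟩ : ∃ B : ℕ → Finset ι, B = fun y => s.filter (fun i => ε * S y < |N i y - S y|) := ⟨_, rfl⟩
  have hBcard : ∀ j, ∀ y ∈ F j, ((B y).card : ℝ) ≤ C / (S X * (1 + ε) ^ j) := by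
    intro j y hy
    obtain ⟨h2, h3, h4, _⟩ := hmem j y hy
    have h5 : 1 ≤ S y := hX.trans (hS h2)
    rw [hB]
    refine (hch y h3 h5).trans ?_
    exact div_le_div_of_nonneg_left hC (by positivity) h4
  have hsub : s.filter (fun i => ∃ x, X ≤ x ∧ x ≤ Y ∧ 3 * ε * S x < |N i x - S x|) ⊆
      J.biUnion (fun j => B (lo j) ∪ B (hi j)) := by
    intro i hi'
    rw [mem_filter] at hi'
    obtain ⟨his, x, hx1, hx2, hx3⟩ := hi'
    have hxJ : n x ∈ J := by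
      rw [hJ]
      exact mem_image_of_mem _ (mem_Icc.2 ⟨hx1, hx2⟩)
    have hxF : x ∈ F (n x) := by
      rw [hF]
      exact mem_filter.2 ⟨mem_Icc.2 ⟨hx1, hx2⟩, rfl⟩
    rw [mem_biUnion]
    refine ⟨n x, hxJ, ?_⟩
    rw [mem_union, hB]
    simp only [mem_filter]
    by_contra hcon
    push Not at hcon
    obtain ⟨hc1, hc2⟩ := hcon
    have hc1 := hc1 his
    have hc2 := hc2 his
    have e1 : lo (n x) ≤ x := by rw [hlo _ (hFne _ hxJ)]; exact min'_le _ _ hxF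
    have e2 : x ≤ hi (n x) := by rw [hhi _ (hFne _ hxJ)]; exact le_max' _ _ hxF
    obtain ⟨_, _, f1, f2⟩ := hmem _ _ (hlo1 _ hxJ)
    obtain ⟨_, _, f3, f4⟩ := hmem _ _ (hhi1 _ hxJ)
    obtain ⟨_, _, f5, f6⟩ := hmem _ _ hxF
    have g1 := hN i e1
    have g2 := hN i e2
    have hc1' := abs_le.1 hc1
    have hc2' := abs_le.1 hc2
    set t := S X * (1 + ε) ^ (n x) with ht
    have ht0 : 0 < t := by positivity
    have k1 : N i x ≤ (1 + ε) * (t * (1 + ε)) := by nlinarith [hc2'.2]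
    have k2 : (1 - ε) * t ≤ N i x := by nlinarith [hc1'.1]
    have k3 : |N i x - S x| ≤ 3 * ε * S x := by
      rw [abs_le]
      constructor
      · nlinarith
      · nlinarith
    linarith
  have h2 : ((s.filter (fun i => ∃ x, X ≤ x ∧ x ≤ Y ∧ 3 * ε * S x < |N i x - S x|)).card : ℝ) ≤
      ∑ j ∈ J, (((B (lo j) ∪ B (hi j)).card : ℕ) : ℝ) := by
    exact_mod_cast (card_le_card hsub).trans card_biUnion_le
  have h3 : ∀ j ∈ J, (((B (lo j) ∪ B (hi j)).card : ℕ) : ℝ) ≤ 2 * C / S X * ((1 + ε)⁻¹) ^ j := by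
    intro j hj
    have h4 : (((B (lo j) ∪ B (hi j)).card : ℕ) : ℝ) ≤ (B (lo j)).card + (B (hi j)).card := by
      exact_mod_cast card_union_le _ _
    have h5 := hBcard j _ (hlo1 j hj)
    have h6 := hBcard j _ (hhi1 j hj)
    have h7 : 2 * C / S X * ((1 + ε)⁻¹) ^ j = C / (S X * (1 + ε) ^ j) + C / (S X * (1 + ε) ^ j) := by
      rw [inv_pow]
      field_simp
      ring
    linarith
  have hr0 : 0 ≤ (1 + ε)⁻¹ := by positivity
  have hr1 : (1 + ε)⁻¹ < 1 := inv_lt_one_of_one_lt₀ (by linarith)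
  have h4 : ∑ j ∈ J, ((1 + ε)⁻¹) ^ j ≤ (1 - (1 + ε)⁻¹)⁻¹ := by
    rw [← tsum_geometric_of_lt_one hr0 hr1]
    exact (summable_geometric_of_lt_one hr0 hr1).sum_le_tsum _ (fun j _ => pow_nonneg hr0 j)
  have h5 : (1 - (1 + ε)⁻¹)⁻¹ = (1 + ε) / ε := by
    have : 1 - (1 + ε)⁻¹ = ε / (1 + ε) := by
      field_simp
      ring
    rw [this, inv_div]
  refine h2.trans ((sum_le_sum h3).trans ?_)
  rw [← mul_sum]
  have h6 : (1 + ε) / ε ≤ 2 / ε := by
    apply div_le_div_of_nonneg_right _ h0.le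
    linarith
  calc 2 * C / S X * ∑ j ∈ J, ((1 + ε)⁻¹) ^ j ≤ 2 * C / S X * (2 / ε) := by
        refine mul_le_mul_of_nonneg_left ?_ (by positivity)
        rw [h5] at h4
        exact h4.trans h6
    _ = 4 * C / ε / S X := by
        field_simp
        ring

end Pool.Agent.V11113.MR
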