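import Pool.Agent.V11113.MR.Av
import Pool.Agent.TH872.GQ.Dual

set_option autoImplicit false

/-! Divisor-bounded weights on the moduli, heights which depend on the modulus, and absolute values over the moduli, for the
members of families with small exponential sums. -/

namespace Pool.Agent.V11113.MR

open Finset Filter
open Pool.Agent.TH212.EH (W WW)
open Pool.Agent.TH872.GQ (Hyp heavy absolute)

lemma log_pow_rpow (M : ℕ) (ε : ℝ) (hε : 0 < ε) : ∃ m₀ : ℕ, ∀ m : ℕ, m₀ ≤ m → Real.log m ^ M ≤ (m : ℝ) ^ ε := by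
  have h1 := (isLittleO_log_rpow_rpow_atTop (M : ℝ) hε).def one_pos
  obtain ⟨t₀, h2⟩ := eventually_atTop.1 h1
  obtain ⟨n, hn⟩ := exists_nat_ge t₀
  refine ⟨n + 1, fun m hm => ?_⟩
  have h3 := h2 m (hn.trans (by exact_mod_cast (by omega : n ≤ m)))
  have hm1 : (1 : ℝ) ≤ m := by exact_mod_cast (by omega : 1 ≤ m)
  have hl := Real.log_nonneg hm1
  rw [one_mul, Real.rpow_natCast, Real.norm_of_nonneg (by positivity), Real.norm_of_nonneg (by positivity)] at h3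
  exact h3

/-- the scale -/
lemma scl (b K₀ M : ℕ) (ε : ℝ) (hε : 0 < ε) : ∃ m₀ : ℕ, 8 ≤ m₀ ∧ ∀ m : ℕ, m₀ ≤ m → ∃ k : ℕ, K₀ ≤ k ∧ (k : ℝ) ≤ Real.log m ∧
    Real.log m ≤ 2 * k ∧ 1 ≤ Real.log ((b + 1) * m : ℕ) ∧ Real.log ((b + 1) * m : ℕ) ≤ (k : ℝ) ^ 2 ∧
    ((⌊(m : ℝ) ^ (1 - ε)⌋₊ : ℕ) : ℝ) * (k : ℝ) ^ M ≤ ((b + 1) * m : ℕ) := by
  obtain ⟨m₁, h1⟩ := log_pow_rpow M ε hε
  obtain ⟨n₀, hn₀⟩ := exists_nat_ge (Real.exp (K₀ + b + 10 : ℕ))
  refine ⟨m₁ + n₀ + 8, by omega, fun m hm => ?_⟩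
  have hm0 : (0 : ℝ) < m := by exact_mod_cast (by omega : 0 < m)
  have hlog : ((K₀ + b + 10 : ℕ) : ℝ) ≤ Real.log m := by
    rw [Real.le_log_iff_exp_le hm0]
    exact hn₀.trans (by exact_mod_cast (by omega : n₀ ≤ m))
  obtain ⟨k, hk⟩ : ∃ k, k = ⌊Real.log m⌋₊ := ⟨_, rfl⟩
  have hk1 : (k : ℝ) ≤ Real.log m := by
    rw [hk]
    exact Nat.floor_le (le_trans (Nat.cast_nonneg _) hlog)
  have hk2 : Real.log m < k + 1 := by
    rw [hk]
    exact Nat.lt_floor_add_one _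
  have hkR : K₀ + b + 10 ≤ k := by
    rw [hk]
    exact Nat.le_floor hlog
  have hk10 : (10 : ℝ) ≤ k := by exact_mod_cast (by omega : 10 ≤ k)
  have hkb : (b : ℝ) + 1 ≤ k := by exact_mod_cast (by omega : b + 1 ≤ k)
  have e : Real.log ((b + 1) * m : ℕ) = Real.log ((b : ℝ) + 1) + Real.log m := by
    push_cast
    rw [Real.log_mul (by positivity) hm0.ne']
  have hb0 : 0 ≤ Real.log ((b : ℝ) + 1) := Real.log_nonneg (by linarith [Nat.cast_nonneg (α := ℝ) b])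
  have hb1 : Real.log ((b : ℝ) + 1) ≤ b + 1 := by
    have := Real.log_le_sub_one_of_pos (show (0 : ℝ) < b + 1 by positivity)
    linarith
  refine ⟨k, by omega, hk1, by linarith, ?_, ?_, ?_⟩
  · rw [e]
    linarith
  · rw [e]
    nlinarith
  · have h2 := h1 m (by omega)
    have h3 : ((⌊(m : ℝ) ^ (1 - ε)⌋₊ : ℕ) : ℝ) ≤ (m : ℝ) ^ (1 - ε) := Nat.floor_le (by positivity)
    have h4 : (k : ℝ) ^ M ≤ (m : ℝ) ^ ε := (pow_le_pow_left₀ (by positivity) hk1 M).trans h2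
    calc ((⌊(m : ℝ) ^ (1 - ε)⌋₊ : ℕ) : ℝ) * (k : ℝ) ^ M ≤ (m : ℝ) ^ (1 - ε) * (m : ℝ) ^ ε :=
          mul_le_mul h3 h4 (by positivity) (by positivity)
      _ = m := by
          rw [← Real.rpow_add hm0]
          norm_num
      _ ≤ ((b + 1) * m : ℕ) := by
          push_cast
          nlinarith [Nat.cast_nonneg (α := ℝ) b]

open Classical in
/-- the hypothesis of the passage to divisor-bounded weights -/
lemma hyp_res (b : ℕ) (δ : ℝ) (hδ : 0 < δ) (T₁ U₁ : ℕ) (ε : ℝ) (hε : 0 < ε) :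
    ∃ m₀ : ℕ, ∀ (m : ℕ) [NeZero m], m₀ ≤ m → ∀ (ι : Type) (s : Finset ι) (v : ι → ZMod m),
    (∀ w : ZMod m, w ≠ 0 → ‖∑ i ∈ s, (ZMod.stdAddChar (w * v i) : ℂ)‖ ≤ s.card * (m : ℝ) ^ (-δ)) →
    ∀ c : ℤ, |c| ≤ b * m → ∀ k : ℕ, 1 ≤ k → (k : ℝ) ≤ Real.log m →
    Hyp k ((b + 1) * m) (b * m) ⌊(m : ℝ) ^ (1 - ε)⌋₊ T₁ U₁ (s.filter fun i => 0 < c + ((v i).val : ℤ))
      (fun _ => 1 / (s.card : ℝ)) (fun i => (c + ((v i).val : ℤ)).toNat) := by
  obtain ⟨m₀, hm8, h⟩ := lev_res ((b : ℝ) + 1) δ (by positivity) hδ T₁ U₁ U₁ ε hε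
  refine ⟨m₀, fun m _ hm ι s v hsum c hc k hk1 hk lam hlam E hdec hE => ?_⟩
  have hk0 : (1 : ℝ) ≤ k := by exact_mod_cast hk1
  have hlog1 : 1 ≤ Real.log m := hk0.trans hk
  have hm0 : (0 : ℝ) < m := by exact_mod_cast (by omega : 0 < m)
  have hcr : |(c : ℝ)| ≤ ((b : ℝ) + 1) * m := by
    have h1 : |(c : ℝ)| ≤ b * m := by exact_mod_cast hc
    linarith
  rcases s.eq_empty_or_nonempty with rfl | hs
  · simp
  have hsc : (0 : ℝ) < s.card := by exact_mod_cast hs.card_pos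
  have h1 := h m hm ι s v hsum c hcr 1 (by push_cast; exact one_le_pow₀ hlog1) (fun _ => lam)
    (fun _ _ q => (hlam q).trans (pow_le_pow_left₀ (by positivity) hk T₁))
  rw [← sum_filter, sum_const, nsmul_eq_mul, mul_one_div, div_le_iff₀ hsc]
  have h2 : (((s.filter fun i => 0 < c + ((v i).val : ℤ)).filter E).card : ℝ) ≤ s.card / Real.log m ^ U₁ := by
    refine le_trans (Nat.cast_le.2 (card_le_card ?_)) h1
    intro i hi
    rw [mem_filter, mem_filter] at hi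
    obtain ⟨⟨his, hi0⟩, hiE⟩ := hi
    obtain ⟨x, hx, hlt⟩ := hE i (mem_filter.2 ⟨his, hi0⟩) hiE
    rw [mem_filter]
    refine ⟨his, hi0, 0, Nat.one_pos, x, ?_, lt_of_le_of_lt ?_ hlt⟩
    · have h3 : (x : ℝ) ≤ b * m := by exact_mod_cast hx
      linarith
    · push_cast
      refine div_le_div₀ (by positivity) (by nlinarith [Nat.cast_nonneg (α := ℝ) b]) (by positivity) ?_
      exact pow_le_pow_left₀ (by positivity) hk U₁
  refine h2.trans ?_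
  rw [one_div_mul_eq_div]
  exact div_le_div_of_nonneg_left hsc.le (by positivity) (pow_le_pow_left₀ (by positivity) hk U₁)

open Classical in
theorem heavy_res (b : ℕ) (δ : ℝ) (hδ : 0 < δ) (T U : ℕ) (ε : ℝ) (hε : 0 < ε) :
    ∃ m₀ : ℕ, ∀ (m : ℕ) [NeZero m], m₀ ≤ m → ∀ (ι : Type) (s : Finset ι) (v : ι → ZMod m),
    (∀ w : ZMod m, w ≠ 0 → ‖∑ i ∈ s, (ZMod.stdAddChar (w * v i) : ℂ)‖ ≤ s.card * (m : ℝ) ^ (-δ)) →
    ∀ c : ℤ, |c| ≤ b * m →
    (∀ lam : ℕ → ℝ, (∀ q, |lam q| ≤ ((q.divisors.card : ℝ) * Real.log m) ^ T) →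
      ((s.filter (fun i => 0 < c + ((v i).val : ℤ) ∧ ∃ x : ℕ, x ≤ b * m ∧
        m / Real.log m ^ U < |W lam ⌊(m : ℝ) ^ (1 - ε)⌋₊ x (c + ((v i).val : ℤ)).toNat|)).card : ℝ) ≤ s.card / Real.log m ^ U ∧
      ∀ y : ℕ → ℕ, (∀ q, y q ≤ b * m) → ((s.filter (fun i => 0 < c + ((v i).val : ℤ) ∧
        m / Real.log m ^ U < |WW lam y ⌊(m : ℝ) ^ (1 - ε)⌋₊ (c + ((v i).val : ℤ)).toNat|)).card : ℝ) ≤ s.card / Real.log m ^ U) ∧
    (∀ w : ι → ℝ, (∀ i, |w i| ≤ Real.log m ^ T) → ∀ y : ℕ → ℕ, (∀ q, y q ≤ b * m) →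
      ∑ q ∈ Icc 1 ⌊(m : ℝ) ^ (1 - ε)⌋₊, (q.divisors.card : ℝ) ^ T *
        |∑ i ∈ s.filter (fun i => 0 < c + ((v i).val : ℤ) ∧ (c + ((v i).val : ℤ)).toNat.Coprime q), w i *
          (Pool.Agent.W93.LV.Fu (fun n => ArithmeticFunction.vonMangoldt n) (y q) q (c + ((v i).val : ℤ)).toNat -
            (y q : ℝ) / Nat.totient q)| ≤ s.card * (m / Real.log m ^ U)) := by
  obtain ⟨T₁, U₁, M₁, k₁, hA⟩ := heavy (2 * T) (U + 1)
  obtain ⟨T₂, U₂, M₂, k₂, hB⟩ := absolute (2 * T) (U + 1)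
  obtain ⟨m₁, h1⟩ := hyp_res b δ hδ T₁ U₁ ε hε
  obtain ⟨m₂, h2⟩ := hyp_res b δ hδ T₂ U₂ ε hε
  obtain ⟨Z, hZ⟩ : ∃ Z : ℕ, Z = (b + 1) * 2 ^ U := ⟨_, rfl⟩
  obtain ⟨m₃, hm8, h3⟩ := scl b (k₁ + k₂ + Z + 2) (M₁ + M₂) ε hε
  refine ⟨m₁ + m₂ + m₃, fun m _ hm ι s v hsum c hc => ?_⟩
  obtain ⟨k, hkR, hk1, hk2, hX1, hX2, hQ⟩ := h3 m (by omega)
  have g1 := h1 m (by omega) ι s v hsum c hc k (by omega) hk1
  have g2 := h2 m (by omega) ι s v hsum c hc k (by omega) hk1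
  generalize ⌊(m : ℝ) ^ (1 - ε)⌋₊ = Q at hQ g1 g2 ⊢
  have hm0 : (0 : ℝ) < m := by exact_mod_cast (by omega : 0 < m)
  have hk0 : (2 : ℝ) ≤ k := by exact_mod_cast (by omega : 2 ≤ k)
  have hkp : (0 : ℝ) < k := by linarith
  have hkZ : ((b : ℝ) + 1) * 2 ^ U ≤ k := by
    have : Z ≤ k := by omega
    rw [hZ] at this
    exact_mod_cast this
  have hlog1 : 1 ≤ Real.log m := by linarith
  have hlogU : Real.log m ^ U ≤ 2 ^ U * (k : ℝ) ^ U := by
    rw [← mul_pow]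
    exact pow_le_pow_left₀ (by positivity) hk2 U
  have hlogT : Real.log m ^ T ≤ (k : ℝ) ^ (2 * T) := by
    rw [pow_mul]
    exact pow_le_pow_left₀ (by positivity) (by nlinarith) T
  have hb0 : (0 : ℝ) ≤ b := Nat.cast_nonneg b
  have hbig : ((b : ℝ) + 1) * Real.log m ^ U ≤ (k : ℝ) ^ (U + 1) := by
    calc ((b : ℝ) + 1) * Real.log m ^ U ≤ ((b : ℝ) + 1) * (2 ^ U * (k : ℝ) ^ U) := mul_le_mul_of_nonneg_left hlogU (by positivity)
      _ = (((b : ℝ) + 1) * 2 ^ U) * (k : ℝ) ^ U := by ring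
      _ ≤ k * (k : ℝ) ^ U := mul_le_mul_of_nonneg_right hkZ (by positivity)
      _ = (k : ℝ) ^ (U + 1) := by ring
  have hLU : 0 < Real.log m ^ U := by positivity
  have hthr : (((b + 1) * m : ℕ) : ℝ) / (k : ℝ) ^ (U + 1) ≤ m / Real.log m ^ U := by
    rw [div_le_div_iff₀ (by positivity) hLU]
    push_cast
    calc ((b : ℝ) + 1) * m * Real.log m ^ U = m * (((b : ℝ) + 1) * Real.log m ^ U) := by ring
      _ ≤ m * (k : ℝ) ^ (U + 1) := mul_le_mul_of_nonneg_left hbig hm0.le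
  have hone : 1 / (k : ℝ) ^ (U + 1) ≤ 1 / Real.log m ^ U := by
    apply one_div_le_one_div_of_le hLU
    nlinarith
  rcases s.eq_empty_or_nonempty with rfl | hs
  · simp
  have hsc : (0 : ℝ) < s.card := by exact_mod_cast hs.card_pos
  have hX' : b * m ≤ (b + 1) * m := Nat.mul_le_mul_right _ (by omega)
  have hk1' : (1 : ℝ) ≤ k := by linarith
  have hQ1 : (Q : ℝ) * (k : ℝ) ^ M₁ ≤ ((b + 1) * m : ℕ) :=
    le_trans (mul_le_mul_of_nonneg_left (pow_le_pow_right₀ hk1' (by omega)) (Nat.cast_nonneg _)) hQ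
  have hQ2 : (Q : ℝ) * (k : ℝ) ^ M₂ ≤ ((b + 1) * m : ℕ) :=
    le_trans (mul_le_mul_of_nonneg_left (pow_le_pow_right₀ hk1' (by omega)) (Nat.cast_nonneg _)) hQ
  have hp : ∀ ω ∈ (s.filter fun i => 0 < c + ((v i).val : ℤ)), (0 : ℝ) ≤ 1 / (s.card : ℝ) := fun _ _ => by positivity
  have hp1 : ∑ ω ∈ (s.filter fun i => 0 < c + ((v i).val : ℤ)), 1 / (s.card : ℝ) ≤ 1 := by
    rw [sum_const, nsmul_eq_mul, mul_one_div, div_le_one hsc]
    exact_mod_cast card_le_card (filter_subset _ s)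
  have hcard : ∀ P : ι → Prop, ∑ ω ∈ (s.filter fun i => 0 < c + ((v i).val : ℤ)), (if P ω then 1 / (s.card : ℝ) else 0) ≤
      1 / (k : ℝ) ^ (U + 1) →
      ((s.filter fun i => 0 < c + ((v i).val : ℤ) ∧ P i).card : ℝ) ≤ s.card / Real.log m ^ U := by
    intro P h
    rw [← sum_filter, sum_const, nsmul_eq_mul, mul_one_div, div_le_iff₀ hsc, filter_filter] at h
    refine h.trans ?_
    calc 1 / (k : ℝ) ^ (U + 1) * s.card ≤ 1 / Real.log m ^ U * s.card := mul_le_mul_of_nonneg_right hone hsc.le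
      _ = s.card / Real.log m ^ U := one_div_mul_eq_div _ _
  have hτ : ∀ q : ℕ, (q.divisors.card : ℝ) ^ T ≤ (q.divisors.card : ℝ) ^ (2 * T) := by
    intro q
    have : q.divisors.card ^ T ≤ q.divisors.card ^ (2 * T) := by
      rw [two_mul, pow_add]
      exact Nat.le_mul_self _
    exact_mod_cast this
  refine ⟨fun lam hlam => ?_, fun w hw y hy => ?_⟩
  · obtain ⟨r1, r2⟩ := hA k (by omega) ((b + 1) * m) (b * m) Q hX' hX1 hX2 hQ1 ι _ (fun _ => 1 / (s.card : ℝ)) hp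
      (fun i => (c + ((v i).val : ℤ)).toNat) g1 lam (by
        intro q
        refine (hlam q).trans ?_
        rw [mul_pow, mul_comm]
        exact mul_le_mul hlogT (hτ q) (by positivity) (by positivity))
    constructor
    · have r3 := r1 (fun i => ∃ x : ℕ, x ≤ b * m ∧ m / Real.log m ^ U < |W lam Q x (c + ((v i).val : ℤ)).toNat|)
        (fun _ => Classical.propDecidable _) (by
          rintro i _ ⟨x, hx, hlt⟩
          exact ⟨x, hx, lt_of_le_of_lt hthr hlt⟩)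
      convert hcard (fun i => ∃ x : ℕ, x ≤ b * m ∧ m / Real.log m ^ U < |W lam Q x (c + ((v i).val : ℤ)).toNat|) r3
    · intro y hy
      have r3 := r2 y hy (fun i => m / Real.log m ^ U < |WW lam y Q (c + ((v i).val : ℤ)).toNat|)
        (fun _ => Classical.propDecidable _) (fun i _ hlt => lt_of_le_of_lt hthr hlt)
      exact hcard (fun i => m / Real.log m ^ U < |WW lam y Q (c + ((v i).val : ℤ)).toNat|) r3
  · have r3 := hB k (by omega) ((b + 1) * m) (b * m) Q hX' hX1 hX2 hQ2 ι _ (fun _ => 1 / (s.card : ℝ)) hp hp1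
      (fun i => (c + ((v i).val : ℤ)).toNat) g2 w (fun i => (hw i).trans hlogT) y hy
    have r4 := r3.trans hthr
    have r5 : (∑ q ∈ Icc 1 Q, (q.divisors.card : ℝ) ^ T *
        |∑ i ∈ s.filter (fun i => 0 < c + ((v i).val : ℤ) ∧ (c + ((v i).val : ℤ)).toNat.Coprime q), w i *
          (Pool.Agent.W93.LV.Fu (fun n => ArithmeticFunction.vonMangoldt n) (y q) q (c + ((v i).val : ℤ)).toNat -
            (y q : ℝ) / Nat.totient q)|) / s.card ≤ m / Real.log m ^ U := by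
      refine le_trans ?_ r4
      rw [sum_div]
      apply sum_le_sum
      intro q _
      rw [mul_div_assoc]
      refine mul_le_mul (hτ q) (le_of_eq ?_) (by positivity) (by positivity)
      rw [← mul_sum, abs_mul, abs_of_nonneg (by positivity : 0 ≤ 1 / (s.card : ℝ)), one_div, inv_mul_eq_div, filter_filter]
    rw [div_le_iff₀ hsc] at r5
    linarith

end Pool.Agent.V11113.MR
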