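import Pool.Agent.V11113.MR.Var
import Pool.Agent.V11113.MR.Grid

set_option autoImplicit false

/-! A law of large numbers for local conditions, for the least residues modulo `m` of the members of a
family with small exponential sums. -/

namespace Pool.Agent.V11113.MR

open Finset

/-- the exponent -/
noncomputable def cc (δ : ℝ) (e : ℕ) : ℝ := min δ 1 / (8 * (e + 1))

lemma cc_pos (δ : ℝ) (hδ : 0 < δ) (e : ℕ) : 0 < cc δ e := by
  unfold cc
  have : 0 < min δ 1 := lt_min hδ one_pos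
  positivity

lemma small (δ : ℝ) (hδ : 0 < δ) (e : ℕ) : ∃ m₀ : ℕ, ∀ m : ℕ, m₀ ≤ m → ∀ y : ℕ, (y : ℝ) ≤ (m : ℝ) ^ cc δ e →
    (y : ℝ) ^ 2 * ((max 1 ((y : ℝ) ^ e)) ^ 2 * kap m δ ((max 1 ((y : ℝ) ^ e)) ^ 2)) ≤ 1 := by
  obtain ⟨d, hd⟩ : ∃ d, d = min δ 1 := ⟨_, rfl⟩
  have hd0 : 0 < d := by rw [hd]; exact lt_min hδ one_pos
  have hd1 : d ≤ 1 := by rw [hd]; exact min_le_right _ _
  have hdδ : d ≤ δ := by rw [hd]; exact min_le_left _ _
  obtain ⟨m₀, hm₀⟩ := exists_nat_ge ((8 + 16 / d) ^ (4 / d))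
  refine ⟨max m₀ 1, fun m hm y hy => ?_⟩
  have hm1n : 1 ≤ m := (le_max_right _ _).trans hm
  have hm1 : (1 : ℝ) ≤ m := by exact_mod_cast hm1n
  have hm0 : (0 : ℝ) < m := by linarith
  have hmm : (m₀ : ℝ) ≤ m := by exact_mod_cast (le_max_left _ _).trans hm
  obtain ⟨A, hA⟩ : ∃ A : ℝ, A = (m : ℝ) ^ cc δ e := ⟨_, rfl⟩
  have hA1 : 1 ≤ A := by rw [hA]; exact Real.one_le_rpow hm1 (cc_pos δ hδ e).le
  have hA0 : 0 < A := by linarith
  rw [← hA] at hy
  have hy0 : (0 : ℝ) ≤ y := Nat.cast_nonneg _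
  obtain ⟨Z, hZ⟩ : ∃ Z : ℝ, Z = max 1 ((y : ℝ) ^ e) := ⟨_, rfl⟩
  rw [← hZ]
  have hZ1 : 1 ≤ Z := by rw [hZ]; exact le_max_left _ _
  have hZA : Z ≤ A ^ e := by
    rw [hZ]
    exact max_le (one_le_pow₀ hA1) (pow_le_pow_left₀ hy0 hy e)
  have hZ2 : Z ^ 2 ≤ A ^ (2 * e) := by
    calc Z ^ 2 ≤ (A ^ e) ^ 2 := pow_le_pow_left₀ (by linarith) hZA 2
      _ = A ^ (2 * e) := by rw [← pow_mul]; ring_nf
  have hlog0 : 0 ≤ Real.log m := Real.log_natCast_nonneg m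
  have hk : kap m δ (Z ^ 2) ≤ (m : ℝ) ^ (-d) * (6 + 4 * Real.log m) + 2 * A ^ (2 * e) / m := by
    unfold kap
    have h1 : (m : ℝ) ^ (-δ) ≤ (m : ℝ) ^ (-d) := Real.rpow_le_rpow_of_exponent_le hm1 (by linarith)
    gcongr
  have hk0 := kap_nonneg m δ (Z ^ 2) (by positivity)
  have h1 : (y : ℝ) ^ 2 * (Z ^ 2 * kap m δ (Z ^ 2)) ≤
      A ^ 2 * (A ^ (2 * e) * ((m : ℝ) ^ (-d) * (6 + 4 * Real.log m) + 2 * A ^ (2 * e) / m)) := by
    gcongr
  refine h1.trans ?_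
  -- powers of `A`
  have he : ((e : ℝ) + 1) ≠ 0 := by positivity
  have hA2 : A ^ (2 + 2 * e) = (m : ℝ) ^ (d / 4) := by
    rw [hA, ← Real.rpow_natCast, ← Real.rpow_mul hm0.le]
    congr 1
    unfold cc
    rw [← hd]
    push_cast
    field_simp
    ring
  have hA4 : A ^ (2 + 4 * e) ≤ (m : ℝ) ^ (d / 2) := by
    calc A ^ (2 + 4 * e) ≤ A ^ ((2 + 2 * e) * 2) := pow_le_pow_right₀ hA1 (by omega)
      _ = ((m : ℝ) ^ (d / 4)) ^ 2 := by rw [pow_mul, hA2]
      _ = (m : ℝ) ^ (d / 2) := by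
        rw [← Real.rpow_natCast, ← Real.rpow_mul hm0.le]
        congr 1
        push_cast
        ring
  have h2 : A ^ 2 * (A ^ (2 * e) * ((m : ℝ) ^ (-d) * (6 + 4 * Real.log m) + 2 * A ^ (2 * e) / m)) =
      A ^ (2 + 2 * e) * (m : ℝ) ^ (-d) * (6 + 4 * Real.log m) + 2 * A ^ (2 + 4 * e) / m := by
    have e1 : A ^ (2 + 2 * e) = A ^ 2 * A ^ (2 * e) := by rw [pow_add]
    have e2 : A ^ (2 + 4 * e) = A ^ 2 * (A ^ (2 * e) * A ^ (2 * e)) := by
      rw [← pow_add, ← pow_add]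
      congr 1
      ring
    rw [e1, e2]
    ring
  rw [h2]
  have h3 : A ^ (2 + 2 * e) * (m : ℝ) ^ (-d) ≤ (m : ℝ) ^ (-(d / 2)) := by
    rw [hA2, ← Real.rpow_add hm0]
    exact Real.rpow_le_rpow_of_exponent_le hm1 (by linarith)
  have h4 : A ^ (2 + 4 * e) / m ≤ (m : ℝ) ^ (-(d / 2)) := by
    rw [div_le_iff₀ hm0]
    refine hA4.trans ?_
    have : (m : ℝ) ^ (-(d / 2)) * m = (m : ℝ) ^ (-(d / 2) + 1) := by
      rw [Real.rpow_add hm0, Real.rpow_one]
    rw [this]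
    exact Real.rpow_le_rpow_of_exponent_le hm1 (by linarith)
  have hlog : Real.log m ≤ (m : ℝ) ^ (d / 4) / (d / 4) := Real.log_le_rpow_div hm0.le (by positivity)
  have hq1 : (1 : ℝ) ≤ (m : ℝ) ^ (d / 4) := Real.one_le_rpow hm1 (by positivity)
  have h5 : (8 + 16 / d) ≤ (m : ℝ) ^ (d / 4) := by
    have h6 : ((8 + 16 / d) ^ (4 / d)) ^ (d / 4) ≤ (m : ℝ) ^ (d / 4) :=
      Real.rpow_le_rpow (by positivity) (hm₀.trans hmm) (by positivity)
    rw [← Real.rpow_mul (by positivity)] at h6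
    have : 4 / d * (d / 4) = 1 := by field_simp
    rwa [this, Real.rpow_one] at h6
  have h6 : (m : ℝ) ^ (-(d / 2)) * ((m : ℝ) ^ (d / 4) * (m : ℝ) ^ (d / 4)) = 1 := by
    rw [← Real.rpow_add hm0, ← Real.rpow_add hm0]
    have : -(d / 2) + (d / 4 + d / 4) = 0 := by ring
    rw [this, Real.rpow_zero]
  obtain ⟨w, hw⟩ : ∃ w : ℝ, w = (m : ℝ) ^ (d / 4) := ⟨_, rfl⟩
  obtain ⟨u, hu⟩ : ∃ u : ℝ, u = (m : ℝ) ^ (-(d / 2)) := ⟨_, rfl⟩
  rw [← hw] at hlog hq1 h5 h6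
  rw [← hu] at h3 h4 h6
  have hu0 : 0 ≤ u := by rw [hu]; positivity
  have hw0 : 0 ≤ w := by linarith
  have h7 : Real.log m ≤ 4 / d * w := by
    refine hlog.trans (le_of_eq ?_)
    field_simp
  have h8 : 2 * A ^ (2 + 4 * e) / m ≤ 2 * u := by
    rw [mul_div_assoc]
    linarith
  calc A ^ (2 + 2 * e) * (m : ℝ) ^ (-d) * (6 + 4 * Real.log m) + 2 * A ^ (2 + 4 * e) / m ≤
      u * (6 + 4 * (4 / d * w)) + 2 * u := by
        refine add_le_add ?_ h8
        exact mul_le_mul h3 (by linarith) (by positivity) hu0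
    _ = u * (8 + 16 / d * w) := by ring
    _ ≤ u * (8 * w + 16 / d * w) := by
        refine mul_le_mul_of_nonneg_left ?_ hu0
        linarith
    _ = u * ((8 + 16 / d) * w) := by ring
    _ ≤ u * (w * w) := by
        refine mul_le_mul_of_nonneg_left ?_ hu0
        exact mul_le_mul_of_nonneg_right h5 hw0
    _ = 1 := h6

open Classical in
/-- the indices up to `x` -/
noncomputable def idx (I : Set ℕ) (x : ℕ) : Finset ℕ := (Icc 1 x).filter (fun j => j ∈ I)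

/-- the expected number of the conditions -/
noncomputable def expected (I : Set ℕ) (M : ℕ → ℕ) (G : (j : ℕ) → Set (ZMod (M j))) (x : ℕ) : ℝ :=
  ∑ j ∈ idx I x, rho M G j

open Classical in
/-- the number of the conditions which are satisfied by `n` -/
noncomputable def hits (I : Set ℕ) (M : ℕ → ℕ) (G : (j : ℕ) → Set (ZMod (M j))) (n : ℤ) (x : ℕ) : ℕ :=
  ((idx I x).filter (fun j => (n : ZMod (M j)) ∈ G j)).card

lemma idx_mono (I : Set ℕ) {x y : ℕ} (h : x ≤ y) : idx I x ⊆ idx I y := by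
  classical
  intro j hj
  unfold idx at hj ⊢
  rw [mem_filter, mem_Icc] at hj ⊢
  exact ⟨⟨hj.1.1, hj.1.2.trans h⟩, hj.2⟩

lemma expected_mono (I : Set ℕ) (M : ℕ → ℕ) (G : (j : ℕ) → Set (ZMod (M j))) : Monotone (expected I M G) := by
  intro x y h
  unfold expected
  exact sum_le_sum_of_subset_of_nonneg (idx_mono I h) (fun j _ _ => rho_nonneg M G j)

lemma hits_mono (I : Set ℕ) (M : ℕ → ℕ) (G : (j : ℕ) → Set (ZMod (M j))) (n : ℤ) :
    Monotone (fun x => (hits I M G n x : ℝ)) := by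
  classical
  intro x y h
  unfold hits
  exact Nat.cast_le.2 (card_le_card (filter_subset_filter _ (idx_mono I h)))

open Classical in
/-- the law of large numbers -/
theorem lln (δ : ℝ) (hδ : 0 < δ) (e : ℕ) : ∃ m₀ : ℕ, ∀ ε : ℝ, 0 < ε → ε ≤ 1 →
    ∀ (m : ℕ) [NeZero m], m₀ ≤ m → ∀ (ι : Type) (s : Finset ι) (v : ι → ZMod m),
    (∀ b : ZMod m, b ≠ 0 → ‖∑ i ∈ s, (ZMod.stdAddChar (b * v i) : ℂ)‖ ≤ s.card * (m : ℝ) ^ (-δ)) →
    ∀ (a : ℤ) (I : Set ℕ) (M : ℕ → ℕ) (G : (j : ℕ) → Set (ZMod (M j))),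
    (∀ j ∈ I, 0 < M j ∧ M j ≤ j ^ e) → (∀ j ∈ I, ∀ j' ∈ I, j ≠ j' → Nat.Coprime (M j) (M j')) →
    ∀ T : ℕ → ℝ, Monotone T → (∀ x, 0 ≤ T x) → ∀ X : ℕ, 1 ≤ expected I M G X + T X →
    ((s.filter (fun i => ∃ x : ℕ, X ≤ x ∧ (x : ℝ) ≤ (m : ℝ) ^ cc δ e ∧
      3 * ε * (expected I M G x + T x) <
        |(hits I M G (a + ((v i).val : ℤ)) x : ℝ) - expected I M G x|)).card : ℝ) ≤
      8 / ε ^ 3 * s.card / (expected I M G X + T X) := by
  obtain ⟨m₀, hm₀⟩ := small δ hδ e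
  refine ⟨m₀, fun ε h0 h1 m _ hm ι s v hsum a I M G hM hcop T hT hT0 X hX => ?_⟩
  obtain ⟨Y, hY⟩ : ∃ Y : ℕ, Y = ⌊(m : ℝ) ^ cc δ e⌋₊ := ⟨_, rfl⟩
  have hsc : (0 : ℝ) ≤ s.card := Nat.cast_nonneg _
  have hdiff : ∀ i x, ((hits I M G (a + ((v i).val : ℤ)) x : ℝ) + T x) - (expected I M G x + T x) =
      (hits I M G (a + ((v i).val : ℤ)) x : ℝ) - expected I M G x := fun i x => by ring
  have hch : ∀ y ≤ Y, 1 ≤ expected I M G y + T y →
      ((s.filter (fun i => ε * (expected I M G y + T y) < |((hits I M G (a + ((v i).val : ℤ)) y : ℝ) + T y) -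
        (expected I M G y + T y)|)).card : ℝ) ≤ 2 / ε ^ 2 * s.card / (expected I M G y + T y) := by
    intro y hy hS
    simp only [hdiff]
    obtain ⟨S, hSd⟩ : ∃ S, S = expected I M G y := ⟨_, rfl⟩
    obtain ⟨W, hW⟩ : ∃ W, W = S + T y := ⟨_, rfl⟩
    rw [← hSd, ← hW] at hS ⊢
    have hSW : S ≤ W := by rw [hW]; linarith [hT0 y]
    have hW0 : 0 < W := by linarith
    have hyA : (y : ℝ) ≤ (m : ℝ) ^ cc δ e := by
      rw [hY] at hy
      exact (Nat.le_floor_iff (Real.rpow_nonneg (Nat.cast_nonneg _) _)).1 hy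
    have hZ : ∀ j ∈ idx I y, (M j : ℝ) ≤ max 1 ((y : ℝ) ^ e) := by
      intro j hj
      unfold idx at hj
      rw [mem_filter, mem_Icc] at hj
      have h2 := (hM j hj.2).2
      have h3 : M j ≤ y ^ e := h2.trans (Nat.pow_le_pow_left hj.1.2 e)
      refine le_max_of_le_right ?_
      exact_mod_cast h3
    have hmem : ∀ j ∈ idx I y, j ∈ I := by
      intro j hj
      unfold idx at hj
      exact (mem_filter.1 hj).2
    have hcard : ((idx I y).card : ℝ) ≤ y := by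
      have h2 : (idx I y).card ≤ (Icc 1 y).card := by
        unfold idx
        exact card_filter_le _ _
      rw [Nat.card_Icc] at h2
      exact_mod_cast (by omega : (idx I y).card ≤ y)
    have hsec := second m s v δ hsum a (idx I y) M (fun j hj => (hM j (hmem j hj)).1)
      (fun j hj j' hj' hne => hcop j (hmem j hj) j' (hmem j' hj') hne) (max 1 ((y : ℝ) ^ e)) (le_max_left _ _) hZ G
    have hsm := hm₀ m hm y hyA
    have hk0 := kap_nonneg m δ ((max 1 ((y : ℝ) ^ e)) ^ 2) (by positivity)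
    have hsec2 : ∑ i ∈ s, ((hits I M G (a + ((v i).val : ℤ)) y : ℝ) - S) ^ 2 ≤ s.card * (W + 1) := by
      have h2 : ∑ i ∈ s, ((hits I M G (a + ((v i).val : ℤ)) y : ℝ) - S) ^ 2 ≤ s.card * (S + 1) := by
        rw [hSd]
        unfold hits expected
        refine hsec.trans ?_
        refine mul_le_mul_of_nonneg_left ?_ hsc
        refine add_le_add le_rfl (le_trans ?_ hsm)
        refine mul_le_mul_of_nonneg_right ?_ (by positivity)
        exact pow_le_pow_left₀ (Nat.cast_nonneg _) hcard 2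
      refine h2.trans (mul_le_mul_of_nonneg_left (by linarith) hsc)
    have hlow : ((s.filter (fun i => ε * W < |(hits I M G (a + ((v i).val : ℤ)) y : ℝ) - S|)).card : ℝ) *
        (ε * W) ^ 2 ≤ ∑ i ∈ s, ((hits I M G (a + ((v i).val : ℤ)) y : ℝ) - S) ^ 2 := by
      rw [← nsmul_eq_mul, ← sum_const]
      refine (sum_le_sum (g := fun i => ((hits I M G (a + ((v i).val : ℤ)) y : ℝ) - S) ^ 2) ?_).trans
        (sum_le_sum_of_subset_of_nonneg (filter_subset _ _) (fun i _ _ => sq_nonneg _))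
      intro i hi
      rw [mem_filter] at hi
      rw [← sq_abs ((hits I M G (a + ((v i).val : ℤ)) y : ℝ) - S)]
      exact pow_le_pow_left₀ (by positivity) hi.2.le 2
    have h2 := hlow.trans hsec2
    have h3 : 2 / ε ^ 2 * (s.card : ℝ) / W = s.card * (2 * W) / (ε * W) ^ 2 := by
      field_simp
    rw [h3, le_div_iff₀ (by positivity)]
    refine h2.trans (mul_le_mul_of_nonneg_left (by linarith) hsc)
  have hg := grid s (fun i x => (hits I M G (a + ((v i).val : ℤ)) x : ℝ) + T x) (fun x => expected I M G x + T x)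
    (fun i => (hits_mono I M G _).add hT) ((expected_mono I M G).add hT) ε h0 h1 (2 / ε ^ 2 * s.card)
    (by positivity) Y hch X hX
  simp only [hdiff] at hg
  refine le_trans ?_ (hg.trans (le_of_eq ?_))
  · apply Nat.cast_le.2
    apply card_le_card
    intro i hi
    rw [mem_filter] at hi ⊢
    obtain ⟨his, x, hx1, hx2, hx3⟩ := hi
    exact ⟨his, x, hx1, by rw [hY]; exact Nat.le_floor hx2, hx3⟩
  · field_simp
    ring

end Pool.Agent.V11113.MR
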