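import Pool.Agent.V11113.MR.ArtinF
import Pool.Agent.TH375.KL.Core

set_option autoImplicit false

/-! The number of the primes `p ≤ x` with a prescribed local condition: arbitrary conditions against the mean values,
and lower bounds, for almost all members of a family with small exponential sums. -/

namespace Pool.Agent.V11113.MR

open Finset Filter Topology
open Pool.Agent.H386R2.Artin (PP card_PP)

open Classical in
/-- arbitrary local conditions against their mean values -/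
theorem model (δ : ℝ) (hδ : 0 < δ) : ∃ m₀ : ℕ, ∀ ε : ℝ, 0 < ε → ∃ C : ℝ, 0 < C ∧
    ∀ (G : (p : ℕ) → Set (ZMod p)),
    ∀ (m : ℕ) [NeZero m], m₀ ≤ m → ∀ (ι : Type) (s : Finset ι) (v : ι → ZMod m),
    (∀ b : ZMod m, b ≠ 0 → ‖∑ i ∈ s, (ZMod.stdAddChar (b * v i) : ℂ)‖ ≤ s.card * (m : ℝ) ^ (-δ)) →
    ∀ (a : ℤ) (X : ℕ), 2 ≤ X →
    ((s.filter (fun i => ∃ x : ℕ, X ≤ x ∧ (x : ℝ) ≤ (m : ℝ) ^ cc δ 1 ∧
      ε * Nat.primeCounting x < |(hits Pr (fun p => p) G (a + ((v i).val : ℤ)) x : ℝ) -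
        expected Pr (fun p => p) G x|)).card : ℝ) ≤ C * s.card / Nat.primeCounting X := by
  obtain ⟨m₀, hm₀⟩ := lln δ hδ 1
  refine ⟨m₀, fun ε hε => ?_⟩
  obtain ⟨η, hη⟩ : ∃ η, η = min (ε / 6) 1 := ⟨_, rfl⟩
  have hη0 : 0 < η := by rw [hη]; exact lt_min (by linarith) one_pos
  have hη1 : η ≤ 1 := by rw [hη]; exact min_le_right _ _
  have hηε : η ≤ ε / 6 := by rw [hη]; exact min_le_left _ _
  refine ⟨8 / η ^ 3, by positivity, fun G m _ hm ι s v hsum a X hX => ?_⟩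
  have hpos : ∀ x, X ≤ x → (1 : ℝ) ≤ Nat.primeCounting x := by
    intro x hx
    have h1 : Nat.primeCounting 2 ≤ Nat.primeCounting x := Nat.monotone_primeCounting (by omega)
    have h2 : Nat.primeCounting 2 = 1 := by decide
    rw [h2] at h1
    exact_mod_cast h1
  have hexp0 : ∀ x, 0 ≤ expected Pr (fun p => p) G x := by
    intro x
    unfold expected
    exact sum_nonneg fun p _ => rho_nonneg _ _ _
  have h := hm₀ η hη0 hη1 m hm ι s v hsum a Pr (fun p => p) G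
    (fun p hp => ⟨Nat.Prime.pos hp, by rw [pow_one]⟩)
    (fun p hp p' hp' hne => (Nat.coprime_primes hp hp').2 hne) (fun x => (Nat.primeCounting x : ℝ))
    (fun x y hxy => Nat.cast_le.2 (Nat.monotone_primeCounting hxy)) (fun x => Nat.cast_nonneg _) X
    (by have := hpos X le_rfl; have := hexp0 X; linarith)
  have hπX := hpos X le_rfl
  refine le_trans ?_ (h.trans ?_)
  · apply Nat.cast_le.2
    apply card_le_card
    intro i hi
    rw [mem_filter] at hi ⊢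
    obtain ⟨his, x, hx1, hx2, hx3⟩ := hi
    refine ⟨his, x, hx1, hx2, lt_of_le_of_lt ?_ hx3⟩
    have e1 := hpos x hx1
    have e2 := expected_le G x
    have e3 := hexp0 x
    nlinarith
  · refine div_le_div_of_nonneg_left (by positivity) (by linarith) ?_
    have := hexp0 X
    linarith

open Classical in
/-- lower bounds -/
theorem below (δ : ℝ) (hδ : 0 < δ) : ∃ m₀ : ℕ, ∀ ε : ℝ, 0 < ε → ∃ C : ℝ, 0 < C ∧
    ∀ (G : (p : ℕ) → Set (ZMod p)) (μ : ℝ),
    (∀ η : ℝ, 0 < η → ∀ᶠ p in atTop, Nat.Prime p → μ - η ≤ rho (fun p => p) G p) →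
    ∃ X₀ : ℕ, ∀ (m : ℕ) [NeZero m], m₀ ≤ m → ∀ (ι : Type) (s : Finset ι) (v : ι → ZMod m),
    (∀ b : ZMod m, b ≠ 0 → ‖∑ i ∈ s, (ZMod.stdAddChar (b * v i) : ℂ)‖ ≤ s.card * (m : ℝ) ^ (-δ)) →
    ∀ (a : ℤ) (X : ℕ), X₀ ≤ X →
    ((s.filter (fun i => ∃ x : ℕ, X ≤ x ∧ (x : ℝ) ≤ (m : ℝ) ^ cc δ 1 ∧
      (hits Pr (fun p => p) G (a + ((v i).val : ℤ)) x : ℝ) < (μ - ε) * Nat.primeCounting x)).card : ℝ) ≤
        C * s.card / Nat.primeCounting X := by
  obtain ⟨m₀, hm₀⟩ := model δ hδ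
  refine ⟨m₀, fun ε hε => ?_⟩
  obtain ⟨C, hC, h⟩ := hm₀ (ε / 2) (by linarith)
  refine ⟨C, hC, fun G μ hμ => ?_⟩
  have h1 : ∀ p, |rho (fun p => p) G p| ≤ 1 := by
    intro p
    rw [abs_of_nonneg (rho_nonneg _ _ _)]
    exact rho_le_one _ _ _
  obtain ⟨X₁, hX₁⟩ := eventually_atTop.1 (Pool.Agent.TH375.KL.cesaro h1 (m := μ) (δ := ε / 8) (by linarith)
    (hμ (ε / 8) (by linarith)))
  refine ⟨X₁ + 2, fun m _ hm ι s v hsum a X hX => ?_⟩
  refine le_trans ?_ (h G m hm ι s v hsum a X (by omega))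
  apply Nat.cast_le.2
  apply card_le_card
  intro i hi
  rw [mem_filter] at hi ⊢
  obtain ⟨his, x, hx1, hx2, hx3⟩ := hi
  refine ⟨his, x, hx1, hx2, ?_⟩
  have e1 := hX₁ x (by omega)
  have e2 : expected Pr (fun p => p) G x = ∑ p ∈ Pool.Agent.TH375.KL.Pr x, rho (fun p => p) G p := by
    unfold expected
    rw [idx_Pr]
    refine sum_congr ?_ fun _ _ => rfl
    ext p
    unfold PP Pool.Agent.TH375.KL.Pr
    simp
  rw [← e2] at e1
  have e3 : (1 : ℝ) ≤ Nat.primeCounting x := by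
    have h1 : Nat.primeCounting 2 ≤ Nat.primeCounting x := Nat.monotone_primeCounting (by omega)
    have h2 : Nat.primeCounting 2 = 1 := by decide
    rw [h2] at h1
    exact_mod_cast h1
  have e4 := neg_le_abs ((hits Pr (fun p => p) G (a + ((v i).val : ℤ)) x : ℝ) - expected Pr (fun p => p) G x)
  nlinarith

end Pool.Agent.V11113.MR
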