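import Pool.Agent.V11113.MR.Main

set_option autoImplicit false

/-! The number of the residue classes `r` modulo `p` for which `r`, or `D r ^ 2`, is a primitive root. -/

namespace Pool.Agent.V11113.MR

open Finset

section
variable (p : ℕ) [hp : Fact p.Prime]

lemma card_prim : ((univ : Finset (ZMod p)).filter (fun y => orderOf y = p - 1)).card = Nat.totient (p - 1) := by
  classical
  have h1 : (univ : Finset (ZMod p)).filter (fun y => orderOf y = p - 1) =
      ((univ : Finset (ZMod p)ˣ).filter (fun u => orderOf u = p - 1)).image (fun u : (ZMod p)ˣ => (u : ZMod p)) := by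
    ext y
    simp only [mem_filter, mem_univ, true_and, mem_image]
    constructor
    · intro hy
      have h2 : 0 < orderOf y := by
        rw [hy]
        have := hp.out.two_le
        omega
      have h3 : IsUnit y := (orderOf_pos_iff.1 h2).isUnit
      obtain ⟨u, rfl⟩ := h3
      exact ⟨u, by rw [← orderOf_units, hy], rfl⟩
    · rintro ⟨u, hu, rfl⟩
      rw [orderOf_units, hu]
  rw [h1, card_image_of_injective _ Units.val_injective]
  exact IsCyclic.card_orderOf_eq_totient (by rw [ZMod.card_units])

lemma char_prim (h2 : p ≠ 2) (y : ZMod p) (hy : orderOf y = p - 1) : quadraticChar (ZMod p) y = -1 := by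
  rw [quadraticChar_neg_one_iff_not_isSquare]
  rintro ⟨z, hz⟩
  have hp2 := hp.out.two_le
  have hodd : Odd p := hp.out.odd_of_ne_two h2
  have hy0 : y ≠ 0 := by
    intro h
    have h3 : 0 < orderOf y := by rw [hy]; omega
    have h4 : IsUnit y := (orderOf_pos_iff.1 h3).isUnit
    exact h4.ne_zero h
  have hz0 : z ≠ 0 := by
    rintro rfl
    exact hy0 (by rw [hz, mul_zero])
  obtain ⟨k, hk⟩ := hodd
  have h5 : y ^ k = 1 := by
    rw [hz, ← sq, ← pow_mul]
    have : 2 * k = p - 1 := by omega
    rw [this]
    exact ZMod.pow_card_sub_one_eq_one hz0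
  have h6 : orderOf y ∣ k := orderOf_dvd_of_pow_eq_one h5
  have hk0 : 0 < k := by
    rcases Nat.eq_zero_or_pos k with h | h
    · subst h
      exfalso
      have : p = 1 := by omega
      omega
    · exact h
  have h7 := Nat.le_of_dvd hk0 h6
  omega

lemma card_prim_sq (h2 : p ≠ 2) (D : ZMod p) (hD : D ≠ 0) :
    (((univ : Finset (ZMod p)).filter (fun r => orderOf (D * r ^ 2) = p - 1)).card : ℤ) =
      Nat.totient (p - 1) * (1 - quadraticChar (ZMod p) D) := by
  classical
  have hchar : ringChar (ZMod p) ≠ 2 := by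
    rw [ZMod.ringChar_zmod_n]
    exact h2
  have h1 := card_eq_sum_card_fiberwise (s := (univ : Finset (ZMod p)).filter (fun r => orderOf (D * r ^ 2) = p - 1))
    (t := (univ : Finset (ZMod p)).filter (fun y => orderOf y = p - 1)) (f := fun r => D * r ^ 2) (by
      intro r hr
      rw [mem_coe, mem_filter] at hr ⊢
      exact ⟨mem_univ _, hr.2⟩)
  have hinv : quadraticChar (ZMod p) D⁻¹ = quadraticChar (ZMod p) D := by
    have h3 : quadraticChar (ZMod p) D * quadraticChar (ZMod p) D⁻¹ = 1 := by
      rw [← map_mul, mul_inv_cancel₀ hD, map_one]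
    rcases quadraticChar_dichotomy hD with h | h
    · rw [h] at h3 ⊢
      linarith
    · rw [h] at h3 ⊢
      linarith
  have h2' : ∀ y ∈ (univ : Finset (ZMod p)).filter (fun y => orderOf y = p - 1),
      ((((univ : Finset (ZMod p)).filter (fun r => orderOf (D * r ^ 2) = p - 1)).filter
        (fun r => D * r ^ 2 = y)).card : ℤ) = 1 - quadraticChar (ZMod p) D := by
    intro y hy
    rw [mem_filter] at hy
    have h3 := quadraticChar_card_sqrts hchar (y * D⁻¹)
    rw [map_mul, char_prim p h2 y hy.2, hinv] at h3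
    have h4 : ((univ : Finset (ZMod p)).filter (fun r => orderOf (D * r ^ 2) = p - 1)).filter
        (fun r => D * r ^ 2 = y) = {x : ZMod p | x ^ 2 = y * D⁻¹}.toFinset := by
      ext r
      simp only [mem_filter, mem_univ, true_and, Set.mem_toFinset, Set.mem_ofPred_eq]
      constructor
      · rintro ⟨_, h⟩
        rw [← h]
        field_simp
      · intro h
        have h5 : D * r ^ 2 = y := by
          rw [h]
          field_simp
        exact ⟨by rw [h5]; exact hy.2, h5⟩
    rw [h4, h3]
    ring
  rw [h1]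
  push_cast
  rw [sum_congr rfl h2', sum_const, card_prim, nsmul_eq_mul]

lemma range_card (S : Set (ZMod p)) [DecidablePred (· ∈ S)] :
    ((range p).filter (fun r : ℕ => (r : ZMod p) ∈ S)).card = ((univ : Finset (ZMod p)).filter (fun r => r ∈ S)).card := by
  refine Finset.card_nbij' (fun r : ℕ => (r : ZMod p)) (fun r => r.val) ?_ ?_ ?_ ?_
  · intro r hr
    rw [mem_coe, mem_filter] at hr ⊢
    exact ⟨mem_univ _, hr.2⟩
  · intro r hr
    rw [mem_coe, mem_filter] at hr ⊢
    refine ⟨mem_range.2 (ZMod.val_lt r), ?_⟩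
    rw [ZMod.natCast_zmod_val]
    exact hr.2
  · intro r hr
    rw [mem_coe, mem_filter] at hr
    exact ZMod.val_cast_of_lt (mem_range.1 hr.1)
  · intro r _
    exact ZMod.natCast_zmod_val r

end

/-- the classes of the primitive roots -/
def GP (p : ℕ) : Set (ZMod p) := {r | orderOf r = p - 1}

/-- the classes `r` for which `D r ^ 2` is a primitive root -/
def GD (D : ℤ) (p : ℕ) : Set (ZMod p) := {r | orderOf ((D : ZMod p) * r ^ 2) = p - 1}

lemma rho_GP (p : ℕ) (hp : p.Prime) : rho (fun p => p) GP p = (Nat.totient (p - 1) : ℝ) / p := by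
  classical
  have : Fact p.Prime := ⟨hp⟩
  unfold rho
  have h := range_card p (GP p)
  have h2 := card_prim p
  congr 2
  refine Eq.trans ?_ (h.trans ?_)
  · congr
  · rw [← h2]
    congr

lemma rho_GD (D : ℤ) (p : ℕ) (hp : p.Prime) (h2 : p ≠ 2) (hD : ¬ (p : ℤ) ∣ D) :
    rho (fun p => p) (GD D) p = (Nat.totient (p - 1) : ℝ) * (1 - (jacobiSym D p : ℝ)) / p := by
  classical
  have : Fact p.Prime := ⟨hp⟩
  unfold rho
  have h := range_card p (GD D p)
  have hD0 : (D : ZMod p) ≠ 0 := by
    intro h
    exact hD ((ZMod.intCast_zmod_eq_zero_iff_dvd D p).1 h)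
  have h3 := card_prim_sq p h2 (D : ZMod p) hD0
  have h4 : jacobiSym D p = quadraticChar (ZMod p) (D : ZMod p) := by
    rw [← jacobiSym.legendreSym.to_jacobiSym]
    rfl
  have h5 : ((((univ : Finset (ZMod p)).filter (fun r => r ∈ GD D p)).card : ℕ) : ℝ) =
      (Nat.totient (p - 1) : ℝ) * (1 - (jacobiSym D p : ℝ)) := by
    rw [h4]
    have h6 : ((univ : Finset (ZMod p)).filter (fun r => r ∈ GD D p)) =
        (univ : Finset (ZMod p)).filter (fun r => orderOf ((D : ZMod p) * r ^ 2) = p - 1) := by
      ext r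
      simp only [mem_filter, mem_univ, true_and]
      rfl
    rw [h6]
    exact_mod_cast h3
  rw [← h5, ← h]

end Pool.Agent.V11113.MR
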